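import Pool.Agent.TH982.Gs

set_option autoImplicit false

/-!
# The long-range energy of finitely supported functions on `ℤ`
-/

namespace Pool.Agent.TH982.Eng

open Finset Filter Topology

/-- coupling `|x - y|^{-α}` (zero on the diagonal) -/
noncomputable def Jc (α : ℝ) (p : ℤ × ℤ) : ℝ := |((p.1 - p.2 : ℤ) : ℝ)| ^ (-α)

lemma Jc_nonneg (α : ℝ) (p : ℤ × ℤ) : 0 ≤ Jc α p := Real.rpow_nonneg (abs_nonneg _) _

lemma Jc_eq {α : ℝ} (hα : α ≠ 0) (p : ℤ × ℤ) (t : ℝ) :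
    (if p.1 = p.2 then (0 : ℝ) else ((|p.1 - p.2| : ℤ) : ℝ) ^ (-α) * t) = Jc α p * t := by
  unfold Jc
  split_ifs with h
  · rw [h]; simp [Real.zero_rpow (neg_ne_zero.2 hα)]
  · rw [Int.cast_abs]

lemma Jc_neg (α : ℝ) (p : ℤ × ℤ) : Jc α (-p.1, -p.2) = Jc α p := by
  unfold Jc
  congr 1
  have : ((-p.1 - -p.2 : ℤ) : ℝ) = -((p.1 - p.2 : ℤ) : ℝ) := by push_cast; ring
  simp only [this, abs_neg]

lemma Jc_swap (α : ℝ) (p : ℤ × ℤ) : Jc α (p.2, p.1) = Jc α p := by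
  unfold Jc
  congr 1
  have : ((p.2 - p.1 : ℤ) : ℝ) = -((p.1 - p.2 : ℤ) : ℝ) := by push_cast; ring
  simp only [this, abs_neg]

/-- supported in `[-N, N]` -/
def FS (N : ℕ) (φ : ℤ → ℝ) : Prop := ∀ x : ℤ, (N : ℤ) < |x| → φ x = 0

lemma summ_J1 {α : ℝ} (hα : 1 < α) {N : ℕ} {φ : ℤ → ℝ} (hφ : FS N φ) :
    Summable fun p : ℤ × ℤ => Jc α p * (φ p.1) ^ 2 := by
  have h0 : Summable fun x : ℤ => (φ x) ^ 2 := by
    refine summable_of_ne_finset_zero (s := Finset.Icc (-(N : ℤ)) N) fun x hx => ?_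
    have : (N : ℤ) < |x| := by
      rw [Finset.mem_Icc, ← abs_le] at hx
      exact not_le.1 hx
    rw [hφ x this]; simp
  have h1 : Summable fun q : ℤ × ℤ => (φ q.1) ^ 2 * |(q.2 : ℝ)| ^ (-α) :=
    h0.mul_of_nonneg (Real.summable_abs_int_rpow hα) (fun _ => sq_nonneg _)
      (fun _ => Real.rpow_nonneg (abs_nonneg _) _)
  have hi : Function.Injective fun p : ℤ × ℤ => (p.1, p.1 - p.2) := by
    rintro ⟨a, b⟩ ⟨c, d⟩ h
    simp only [Prod.mk.injEq] at h ⊢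
    omega
  refine (h1.comp_injective hi).congr fun p => ?_
  simp only [Function.comp, Jc]
  ring

lemma summ_J2 {α : ℝ} (hα : 1 < α) {N : ℕ} {φ : ℤ → ℝ} (hφ : FS N φ) :
    Summable fun p : ℤ × ℤ => Jc α p * (φ p.2) ^ 2 := by
  have h := (summ_J1 hα hφ).comp_injective (Equiv.prodComm ℤ ℤ).injective
  refine h.congr fun p => ?_
  simp only [Function.comp, Equiv.prodComm_apply, Prod.fst_swap]
  rw [← Jc_swap α p]; rfl

lemma summ_B {α : ℝ} (hα : 1 < α) {N : ℕ} {φ ψ : ℤ → ℝ} (hφ : FS N φ) (hψ : FS N ψ) :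
    Summable fun p : ℤ × ℤ => Jc α p * ((φ p.1 - φ p.2) * (ψ p.1 - ψ p.2)) := by
  have h := ((summ_J1 hα hφ).add (summ_J2 hα hφ)).add ((summ_J1 hα hψ).add (summ_J2 hα hψ))
  refine Summable.of_norm_bounded h fun p => ?_
  rw [Real.norm_eq_abs, abs_mul, abs_of_nonneg (Jc_nonneg α p)]
  have h1 : |(φ p.1 - φ p.2) * (ψ p.1 - ψ p.2)| ≤
      φ p.1 ^ 2 + φ p.2 ^ 2 + (ψ p.1 ^ 2 + ψ p.2 ^ 2) := by
    rw [abs_le]
    constructor
    · nlinarith [sq_nonneg ((φ p.1 - φ p.2) + (ψ p.1 - ψ p.2)), sq_nonneg (φ p.1 + φ p.2),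
        sq_nonneg (ψ p.1 + ψ p.2)]
    · nlinarith [sq_nonneg ((φ p.1 - φ p.2) - (ψ p.1 - ψ p.2)), sq_nonneg (φ p.1 + φ p.2),
        sq_nonneg (ψ p.1 + ψ p.2)]
  calc _ ≤ Jc α p * (φ p.1 ^ 2 + φ p.2 ^ 2 + (ψ p.1 ^ 2 + ψ p.2 ^ 2)) :=
        mul_le_mul_of_nonneg_left h1 (Jc_nonneg α p)
    _ = _ := by ring

/-- The energy (ordered pairs). -/
noncomputable def En (α : ℝ) (φ : ℤ → ℝ) : ℝ := ∑' p : ℤ × ℤ, Jc α p * (φ p.1 - φ p.2) ^ 2

lemma summ_E {α : ℝ} (hα : 1 < α) {N : ℕ} {φ : ℤ → ℝ} (hφ : FS N φ) :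
    Summable fun p : ℤ × ℤ => Jc α p * (φ p.1 - φ p.2) ^ 2 :=
  (summ_B hα hφ hφ).congr fun p => by ring

lemma En_par {α : ℝ} (hα : 1 < α) {N : ℕ} {φ ψ : ℤ → ℝ} (hφ : FS N φ) (hψ : FS N ψ) :
    En α (φ + ψ) + En α (φ - ψ) = 2 * En α φ + 2 * En α ψ := by
  have hp : FS N (φ + ψ) := fun x hx => by simp [hφ x hx, hψ x hx]
  have hm : FS N (φ - ψ) := fun x hx => by simp [hφ x hx, hψ x hx]
  unfold En
  rw [← tsum_mul_left, ← tsum_mul_left, ← (summ_E hα hp).tsum_add (summ_E hα hm),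
    ← ((summ_E hα hφ).mul_left 2).tsum_add ((summ_E hα hψ).mul_left 2)]
  refine tsum_congr fun p => ?_
  simp only [Pi.add_apply, Pi.sub_apply]
  ring

lemma En_lower {α : ℝ} (hα : 1 < α) {N : ℕ} {φ : ℤ → ℝ} (hφ : FS N φ) :
    ((2 * N + 1 : ℕ) : ℝ) ^ (-α) * ∑ x ∈ Finset.Icc (-(N : ℤ)) N, (φ x) ^ 2 ≤ En α φ := by
  have hs := summ_E hα hφ
  have hinj : Set.InjOn (fun x : ℤ => ((x, (N : ℤ) + 1) : ℤ × ℤ))
      (Finset.Icc (-(N : ℤ)) N : Finset ℤ) := by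
    intro a _ b _ h
    simpa using h
  have h1 := hs.sum_le_tsum ((Finset.Icc (-(N : ℤ)) N).image fun x : ℤ => (x, (N : ℤ) + 1))
    (fun p _ => mul_nonneg (Jc_nonneg α p) (sq_nonneg _))
  rw [Finset.sum_image hinj] at h1
  refine le_trans ?_ h1
  rw [Finset.mul_sum]
  refine Finset.sum_le_sum fun x hx => ?_
  rw [Finset.mem_Icc] at hx
  have h0 : φ ((N : ℤ) + 1) = 0 := hφ _ (by rw [abs_of_nonneg (by positivity)]; omega)
  simp only [h0, sub_zero]
  refine mul_le_mul_of_nonneg_right ?_ (sq_nonneg _)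
  unfold Jc
  have h2 : |((x - ((N : ℤ) + 1) : ℤ) : ℝ)| = (((N : ℤ) + 1 - x : ℤ) : ℝ) := by
    rw [← Int.cast_abs, abs_sub_comm, abs_of_pos (by omega)]
  simp only [h2]
  refine Real.rpow_le_rpow_of_nonpos ?_ ?_ (by linarith)
  · have : (0 : ℤ) < (N : ℤ) + 1 - x := by omega
    exact_mod_cast this
  · have : (N : ℤ) + 1 - x ≤ ((2 * N + 1 : ℕ) : ℤ) := by push_cast; omega
    exact_mod_cast this

/-! ### Indicators of intervals -/

/-- indicator of `[-R, R]` -/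
noncomputable def eR (R : ℕ) (x : ℤ) : ℝ := if |x| ≤ (R : ℤ) then 1 else 0

lemma eR_FS {R N : ℕ} (h : R ≤ N) : FS N (eR R) := by
  intro x hx
  unfold eR
  rw [if_neg]
  have : (R : ℤ) ≤ N := by exact_mod_cast h
  omega

/-- bilinear form of two indicators -/
noncomputable def aR (α : ℝ) (R R' : ℕ) : ℝ :=
  ∑' p : ℤ × ℤ, Jc α p * ((eR R p.1 - eR R p.2) * (eR R' p.1 - eR R' p.2))

lemma aR_symm (α : ℝ) (R R' : ℕ) : aR α R R' = aR α R' R := by
  unfold aR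
  exact tsum_congr fun p => by ring

lemma prod_nonneg' (R R' : ℕ) (p : ℤ × ℤ) :
    0 ≤ (eR R p.1 - eR R p.2) * (eR R' p.1 - eR R' p.2) := by
  unfold eR
  rcases le_total R R' with h | h
  · have h' : (R : ℤ) ≤ R' := by exact_mod_cast h
    split_ifs <;> first | (norm_num; done) | (exfalso; omega)
  · have h' : (R' : ℤ) ≤ R := by exact_mod_cast h
    split_ifs <;> first | (norm_num; done) | (exfalso; omega)

lemma aR_nonneg (α : ℝ) (R R' : ℕ) : 0 ≤ aR α R R' :=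
  tsum_nonneg fun p => mul_nonneg (Jc_nonneg α p) (prod_nonneg' R R' p)

/-- one quarter of the interaction -/
noncomputable def F1 (α : ℝ) (R R' : ℕ) (p : ℤ × ℤ) : ℝ :=
  if p.1 ≤ (R : ℤ) ∧ (R' : ℤ) < p.2 then Jc α p else 0

lemma F1_nonneg (α : ℝ) (R R' : ℕ) (p : ℤ × ℤ) : 0 ≤ F1 α R R' p := by
  unfold F1; split_ifs
  · exact Jc_nonneg α p
  · exact le_rfl

lemma two_tail {α A : ℝ} (hα : 2 < α) (hA : 1 ≤ A) :
    Summable (fun q : ℕ × ℕ => (A + q.1 + q.2) ^ (-α)) ∧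
      ∑' q : ℕ × ℕ, (A + q.1 + q.2) ^ (-α) ≤
        (1 + 1 / (α - 1)) * (1 + 1 / (α - 2)) * A ^ (2 - α) := by
  have hA' : ∀ s : ℕ, 1 ≤ A + s := fun s => by
    have : (0 : ℝ) ≤ s := s.cast_nonneg
    linarith
  have h1 : ∀ s : ℕ, Summable (fun t : ℕ => (A + s + t) ^ (-α)) := fun s =>
    (Gs.tail_summable (by linarith : 1 < α) (hA' s)).1
  have h2 : ∀ s : ℕ, ∑' t : ℕ, (A + s + t) ^ (-α) ≤ (1 + 1 / (α - 1)) * (A + s) ^ (1 - α) :=
    fun s => (Gs.tail_summable (by linarith : 1 < α) (hA' s)).2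
  have h3 := Gs.tail_summable (γ := α - 1) (by linarith) hA
  have e3 : ∀ s : ℕ, (A + s) ^ (-(α - 1)) = (A + s) ^ (1 - α) := fun s => by
    congr 1; ring
  simp_rw [e3] at h3
  have hC : 0 ≤ 1 + 1 / (α - 1) := by
    have : 0 < α - 1 := by linarith
    positivity
  have h0 : ∀ q : ℕ × ℕ, 0 ≤ (A + q.1 + q.2) ^ (-α) := fun q =>
    Real.rpow_nonneg (by
      have h1 : (0 : ℝ) ≤ q.1 := q.1.cast_nonneg
      have h2 : (0 : ℝ) ≤ q.2 := q.2.cast_nonneg
      linarith) _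
  have hs2 : Summable fun s : ℕ => ∑' t : ℕ, (A + s + t) ^ (-α) :=
    Summable.of_nonneg_of_le (fun s => tsum_nonneg fun t => h0 (s, t)) h2 (h3.1.mul_left _)
  have hs : Summable (fun q : ℕ × ℕ => (A + q.1 + q.2) ^ (-α)) := by
    rw [summable_prod_of_nonneg h0]
    exact ⟨h1, hs2⟩
  refine ⟨hs, ?_⟩
  rw [hs.tsum_prod]
  calc ∑' s : ℕ, ∑' t : ℕ, (A + s + t) ^ (-α)
      ≤ ∑' s : ℕ, (1 + 1 / (α - 1)) * (A + s) ^ (1 - α) := hs2.tsum_le_tsum h2 (h3.1.mul_left _)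
    _ = (1 + 1 / (α - 1)) * ∑' s : ℕ, (A + s) ^ (1 - α) := tsum_mul_left
    _ ≤ (1 + 1 / (α - 1)) * ((1 + 1 / (α - 1 - 1)) * A ^ (1 - (α - 1))) :=
        mul_le_mul_of_nonneg_left h3.2 hC
    _ = _ := by
        rw [show α - 1 - 1 = α - 2 by ring, show 1 - (α - 1) = 2 - α by ring]; ring

lemma F1_sum {α : ℝ} (hα : 2 < α) {R R' : ℕ} (h : R ≤ R') :
    Summable (F1 α R R') ∧ ∑' p, F1 α R R' p ≤
      (1 + 1 / (α - 1)) * (1 + 1 / (α - 2)) * (((R' - R : ℕ) : ℝ) + 1) ^ (2 - α) := by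
  let i : ℕ × ℕ → ℤ × ℤ := fun q => ((R : ℤ) - q.1, (R' : ℤ) + 1 + q.2)
  have hi : Function.Injective i := by
    rintro ⟨a, b⟩ ⟨c, d⟩ h
    simp only [i, Prod.mk.injEq] at h ⊢
    omega
  have hoff : ∀ p, p ∉ Set.range i → F1 α R R' p = 0 := by
    intro p hp
    unfold F1
    rw [if_neg]
    rintro ⟨h1, h2⟩
    refine hp ⟨(((R : ℤ) - p.1).toNat, (p.2 - (R' : ℤ) - 1).toNat), ?_⟩
    simp only [i]
    ext
    · simp only; omega
    · simp only; omega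
  have hcomp : F1 α R R' ∘ i = fun q : ℕ × ℕ => ((((R' - R : ℕ) : ℝ) + 1) + q.1 + q.2) ^ (-α) := by
    funext q
    simp only [Function.comp, F1, i]
    rw [if_pos ⟨by omega, by omega⟩]
    unfold Jc
    congr 1
    have : ((R : ℤ) - (q.1 : ℤ) - ((R' : ℤ) + 1 + (q.2 : ℤ)) : ℤ) =
        -(((R' - R : ℕ) + 1 + q.1 + q.2 : ℕ) : ℤ) := by
      push_cast [Nat.cast_sub h]; ring
    simp only [this, Int.cast_neg, abs_neg, Int.cast_natCast, Nat.abs_cast]
    push_cast; ring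
  have hA : (1 : ℝ) ≤ ((R' - R : ℕ) : ℝ) + 1 := by
    have : (0 : ℝ) ≤ ((R' - R : ℕ) : ℝ) := Nat.cast_nonneg _
    linarith
  obtain ⟨ht1, ht2⟩ := two_tail hα hA
  have hs : Summable (F1 α R R') := by
    rw [← hi.summable_iff hoff, hcomp]; exact ht1
  refine ⟨hs, ?_⟩
  have hsupp : Function.support (F1 α R R') ⊆ Set.range i := by
    intro p hp
    by_contra hc
    exact hp (hoff p hc)
  rw [← hi.tsum_eq hsupp]
  have : ∑' q, F1 α R R' (i q) = ∑' q : ℕ × ℕ, ((((R' - R : ℕ) : ℝ) + 1) + q.1 + q.2) ^ (-α) :=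
    tsum_congr fun q => congrFun hcomp q
  rw [this]; exact ht2

lemma aR_le_aux {α : ℝ} (hα : 2 < α) {R R' : ℕ} (h : R ≤ R') :
    aR α R R' ≤ 4 * ((1 + 1 / (α - 1)) * (1 + 1 / (α - 2)) * (((R' - R : ℕ) : ℝ) + 1) ^ (2 - α)) := by
  obtain ⟨hs, hb⟩ := F1_sum hα h
  let n : ℤ × ℤ ≃ ℤ × ℤ := (Equiv.neg ℤ).prodCongr (Equiv.neg ℤ)
  let w : ℤ × ℤ ≃ ℤ × ℤ := Equiv.prodComm ℤ ℤ
  have hn : Summable fun p => F1 α R R' (n p) := hs.comp_injective n.injective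
  have hw : Summable fun p => F1 α R R' (w p) := hs.comp_injective w.injective
  have hnw : Summable fun p => F1 α R R' (n (w p)) := hn.comp_injective w.injective
  have en : ∑' p, F1 α R R' (n p) = ∑' p, F1 α R R' p := n.tsum_eq _
  have ew : ∑' p, F1 α R R' (w p) = ∑' p, F1 α R R' p := w.tsum_eq _
  have enw : ∑' p, F1 α R R' (n (w p)) = ∑' p, F1 α R R' p := by
    rw [w.tsum_eq (fun p => F1 α R R' (n p))]; exact en
  have hle : ∀ p : ℤ × ℤ, Jc α p * ((eR R p.1 - eR R p.2) * (eR R' p.1 - eR R' p.2)) ≤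
      (F1 α R R' p + F1 α R R' (n p)) + (F1 α R R' (w p) + F1 α R R' (n (w p))) := by
    rintro ⟨x, y⟩
    have h1 := F1_nonneg α R R' (x, y)
    have h2 := F1_nonneg α R R' (n (x, y))
    have h3 := F1_nonneg α R R' (w (x, y))
    have h4 := F1_nonneg α R R' (n (w (x, y)))
    have hJ := Jc_nonneg α (x, y)
    have h' : (R : ℤ) ≤ R' := by exact_mod_cast h
    have hN : n (x, y) = (-x, -y) := rfl
    have hW : w (x, y) = (y, x) := rfl
    have hNW : n (w (x, y)) = (-y, -x) := rfl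
    by_cases c1 : |x| ≤ (R : ℤ) ∧ (R' : ℤ) < |y|
    · have hv : (eR R x - eR R y) * (eR R' x - eR R' y) = 1 := by
        unfold eR
        rw [if_pos c1.1, if_neg (by omega), if_pos (by omega), if_neg (by omega)]
        norm_num
      simp only [hv, mul_one]
      rcases abs_cases y with ⟨hy, _⟩ | ⟨hy, _⟩
      · have : F1 α R R' (x, y) = Jc α (x, y) := by
          unfold F1; rw [if_pos ⟨by have := le_abs_self x; simp only; omega, by simp only; omega⟩]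
        linarith
      · have : F1 α R R' (n (x, y)) = Jc α (x, y) := by
          rw [hN]; unfold F1
          rw [if_pos ⟨by have := neg_abs_le x; simp only; omega, by simp only; omega⟩]
          exact Jc_neg α (x, y)
        linarith
    · by_cases c2 : |y| ≤ (R : ℤ) ∧ (R' : ℤ) < |x|
      · have hv : (eR R x - eR R y) * (eR R' x - eR R' y) = 1 := by
          unfold eR
          rw [if_neg (by omega), if_pos c2.1, if_neg (by omega), if_pos (by omega)]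
          norm_num
        simp only [hv, mul_one]
        rcases abs_cases x with ⟨hx, _⟩ | ⟨hx, _⟩
        · have : F1 α R R' (w (x, y)) = Jc α (x, y) := by
            rw [hW]; unfold F1
            rw [if_pos ⟨by have := le_abs_self y; simp only; omega, by simp only; omega⟩]
            exact Jc_swap α (x, y)
          linarith
        · have : F1 α R R' (n (w (x, y))) = Jc α (x, y) := by
            rw [hNW]; unfold F1
            rw [if_pos ⟨by have := neg_abs_le y; simp only; omega, by simp only; omega⟩]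
            exact (Jc_neg α (y, x)).trans (Jc_swap α (x, y))
          linarith
      · have hv : (eR R x - eR R y) * (eR R' x - eR R' y) = 0 := by
          unfold eR
          split_ifs <;> first | (norm_num; done) | (exfalso; omega)
        simp only [hv, mul_zero]
        linarith
  have hs4 := (hs.add hn).add (hw.add hnw)
  have hsum : Summable fun p : ℤ × ℤ =>
      Jc α p * ((eR R p.1 - eR R p.2) * (eR R' p.1 - eR R' p.2)) :=
    summ_B (by linarith) (eR_FS h) (eR_FS le_rfl)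
  calc aR α R R' ≤ ∑' p, ((F1 α R R' p + F1 α R R' (n p)) + (F1 α R R' (w p) + F1 α R R' (n (w p)))) :=
        hsum.tsum_le_tsum hle hs4
    _ = 4 * ∑' p, F1 α R R' p := by
        rw [(hs.add hn).tsum_add (hw.add hnw), hs.tsum_add hn, hw.tsum_add hnw, en, ew, enw]; ring
    _ ≤ _ := by linarith

/-- The constant. -/
noncomputable def Ca (α : ℝ) : ℝ := 4 * ((1 + 1 / (α - 1)) * (1 + 1 / (α - 2)))

lemma Ca_pos {α : ℝ} (hα : 2 < α) : 0 < Ca α := by
  unfold Ca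
  have h1 : 0 < α - 1 := by linarith
  have h2 : 0 < α - 2 := by linarith
  positivity

lemma aR_le {α : ℝ} (hα : 2 < α) (R R' : ℕ) :
    aR α R R' ≤ Ca α * ((((R' - R) + (R - R') : ℕ) : ℝ) + 1) ^ (2 - α) := by
  unfold Ca
  rcases le_total R R' with h | h
  · have := aR_le_aux hα h
    rw [Nat.sub_eq_zero_of_le h, add_zero]
    linarith
  · have := aR_le_aux hα h
    rw [aR_symm, Nat.sub_eq_zero_of_le h, zero_add]
    linarith

end Pool.Agent.TH982.Eng
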