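import Pool.Agent.TH982.GW
import Pool.Agent.TH982.En

set_option autoImplicit false

/-!
# The discrete Gaussian chain with couplings `|x-y|^{-α}`
-/

namespace Pool.Agent.TH982.Chain

open Finset Filter Topology Pool.Agent.TH982.GWt Pool.Agent.TH982.Eng

/-- integer configurations supported in `[-N, N]` -/
def CS (N : ℕ) : AddSubgroup (ℤ → ℤ) where
  carrier := {φ | ∀ x : ℤ, (N : ℤ) < |x| → φ x = 0}
  add_mem' := fun ha hb x hx => by simp [ha x hx, hb x hx]
  zero_mem' := fun _ _ => rfl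
  neg_mem' := fun ha x hx => by simp [ha x hx]

lemma CS_apply {N : ℕ} (φ : CS N) : ∀ x : ℤ, (N : ℤ) < |x| → φ.1 x = 0 := φ.2

/-- the real-valued function -/
def toR (φ : ℤ → ℤ) : ℤ → ℝ := fun x => (φ x : ℝ)

lemma toR_FS {N : ℕ} (φ : CS N) : FS N (toR φ.1) := fun x hx => by
  simp [toR, CS_apply φ x hx]

/-- the Gibbs weight -/
noncomputable def WN (α β : ℝ) (N : ℕ) (φ : CS N) : ℝ := Real.exp (-(β * En α (toR φ.1)))

/-- restriction to the box -/
def res (N : ℕ) (φ : CS N) : {x // x ∈ Finset.Icc (-(N : ℤ)) N} → ℤ := fun x => φ.1 x.1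

lemma res_injective (N : ℕ) : Function.Injective (res N) := by
  intro φ ψ h
  ext x
  by_cases hx : x ∈ Finset.Icc (-(N : ℤ)) N
  · exact congrFun h ⟨x, hx⟩
  · have : (N : ℤ) < |x| := by
      rw [Finset.mem_Icc, ← abs_le] at hx
      exact not_le.1 hx
    rw [CS_apply φ x this, CS_apply ψ x this]

instance (N : ℕ) : Countable (CS N) := (res_injective N).countable

lemma two_tf (N : ℕ) : ∀ x : CS N, x + x = 0 → x = 0 := by
  intro x hx
  ext t
  have := congrFun (congrArg Subtype.val hx) t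
  simp only [AddSubgroup.coe_add, Pi.add_apply, ZeroMemClass.coe_zero, Pi.zero_apply] at this ⊢
  omega

/-- sum of squares -/
noncomputable def sq (N : ℕ) (φ : CS N) : ℝ :=
  ∑ x : {x // x ∈ Finset.Icc (-(N : ℤ)) N}, ((res N φ x : ℤ) : ℝ) ^ 2

lemma sq_nonneg' (N : ℕ) (φ : CS N) : 0 ≤ sq N φ := Finset.sum_nonneg fun _ _ => sq_nonneg _

lemma sq_eq (N : ℕ) (φ : CS N) : sq N φ = ∑ x ∈ Finset.Icc (-(N : ℤ)) N, (toR φ.1 x) ^ 2 := by
  unfold sq res toR
  exact Finset.sum_coe_sort (Finset.Icc (-(N : ℤ)) N) (fun x => ((φ.1 x : ℤ) : ℝ) ^ 2)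

lemma summable_sq (N : ℕ) {c : ℝ} (hc : 0 < c) :
    Summable fun φ : CS N => Real.exp (-(c * sq N φ)) :=
  (Gs.summable_gauss (ι := {x // x ∈ Finset.Icc (-(N : ℤ)) N}) hc).comp_injective (res_injective N)

lemma WN_le {α β : ℝ} (hα : 1 < α) (hβ : 0 < β) (N : ℕ) (φ : CS N) :
    WN α β N φ ≤ Real.exp (-((β * ((2 * N + 1 : ℕ) : ℝ) ^ (-α)) * sq N φ)) := by
  unfold WN
  rw [Real.exp_le_exp, neg_le_neg_iff, mul_assoc, sq_eq]
  exact mul_le_mul_of_nonneg_left (En_lower hα (toR_FS φ)) hβ.le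

lemma cN_pos (α : ℝ) {β : ℝ} (hβ : 0 < β) (N : ℕ) : 0 < β * ((2 * N + 1 : ℕ) : ℝ) ^ (-α) :=
  mul_pos hβ (Real.rpow_pos_of_pos (by positivity) _)

lemma WN_GW {α β : ℝ} (hα : 1 < α) (hβ : 0 < β) (N : ℕ) : GW (WN α β N) := by
  refine ⟨fun _ => Real.exp_pos _, ⟨fun φ => Real.exp (-(β / 2 * En α (toR φ.1))), fun φ ψ => ?_⟩,
    ?_⟩
  · unfold WN
    rw [← Real.exp_add, ← Real.exp_add]
    congr 1
    have h := En_par hα (toR_FS φ) (toR_FS ψ)
    have e1 : toR (φ + ψ : CS N).1 = toR φ.1 + toR ψ.1 := by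
      funext x; simp [toR]
    have e2 : toR (φ - ψ : CS N).1 = toR φ.1 - toR ψ.1 := by
      funext x; simp [toR]
    rw [e1, e2]
    linear_combination (β / 2) * h
  · exact Summable.of_nonneg_of_le (fun _ => (Real.exp_pos _).le) (WN_le hα hβ N)
      (summable_sq N (cN_pos α hβ N))

/-- height at the origin -/
def f0 (N : ℕ) : CS N →+ ℝ where
  toFun φ := (φ.1 0 : ℝ)
  map_zero' := by simp
  map_add' φ ψ := by simp

lemma summable_f0 {α β : ℝ} (hα : 1 < α) (hβ : 0 < β) (N : ℕ) :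
    Summable fun φ : CS N => WN α β N φ * f0 N φ ^ 2 := by
  have hc := cN_pos α hβ N
  have hb : ∀ φ : CS N, f0 N φ ^ 2 ≤ 1 * sq N φ := by
    intro φ
    rw [one_mul, sq_eq]
    exact Finset.single_le_sum (f := fun x => (toR φ.1 x) ^ 2) (fun _ _ => sq_nonneg _)
      (Finset.mem_Icc.2 ⟨by omega, by omega⟩)
  have h := Gs.summable_gauss_mul (sq N) (fun φ => f0 N φ ^ 2) (sq_nonneg' N) hc
    (fun _ => sq_nonneg _) hb (summable_sq N (by positivity))
  refine Summable.of_nonneg_of_le (fun _ => mul_nonneg (Real.exp_pos _).le (sq_nonneg _))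
    (fun φ => ?_) h
  exact mul_le_mul_of_nonneg_right (WN_le hα hβ N φ) (sq_nonneg _)

/-! ### Nested intervals -/

/-- superposition of multiples of indicators of nested intervals -/
def nest (M l : ℕ) (X : Fin M → ℤ) (x : ℤ) : ℤ :=
  ∑ i : Fin M, if |x| ≤ (((i : ℕ) + 1) * l : ℕ) then X i else 0

/-- the embedding -/
def jj (M l N : ℕ) (h : M * l ≤ N) : (Fin M → ℤ) →+ CS N where
  toFun X := ⟨nest M l X, fun x hx => by
    unfold nest
    refine Finset.sum_eq_zero fun i _ => ?_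
    rw [if_neg]
    have h1 : ((i : ℕ) + 1) * l ≤ M * l := Nat.mul_le_mul_right l i.2
    have h2 : ((((i : ℕ) + 1) * l : ℕ) : ℤ) ≤ N := by exact_mod_cast h1.trans h
    omega⟩
  map_zero' := by
    ext x; simp [nest]
  map_add' X Y := by
    ext x
    simp only [nest, Pi.add_apply, AddSubgroup.coe_add]
    rw [← Finset.sum_add_distrib]
    refine Finset.sum_congr rfl fun i _ => ?_
    split_ifs <;> simp

lemma nest_diff (M l : ℕ) (hl : 1 ≤ l) (X : Fin M → ℤ) (i : Fin M) :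
    nest M l X ((((i : ℕ) + 1) * l : ℕ) : ℤ) - nest M l X ((((i : ℕ) + 1) * l : ℕ) + 1 : ℤ) =
      X i := by
  unfold nest
  rw [← Finset.sum_sub_distrib, Finset.sum_eq_single i]
  · rw [if_pos (by rw [abs_of_nonneg (by positivity)]), if_neg (by
      rw [abs_of_nonneg (by positivity)]; omega)]
    ring
  · intro k _ hk
    have hk' : (k : ℕ) ≠ i := fun h => hk (Fin.ext h)
    rw [abs_of_nonneg (by positivity : (0 : ℤ) ≤ ((((i : ℕ) + 1) * l : ℕ) : ℤ)),
      abs_of_nonneg (by positivity : (0 : ℤ) ≤ ((((i : ℕ) + 1) * l : ℕ) : ℤ) + 1)]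
    rcases lt_or_gt_of_ne hk' with h | h
    · have h1 : ((k : ℕ) + 1) * l < ((i : ℕ) + 1) * l :=
        Nat.mul_lt_mul_of_pos_right (by omega) (by omega)
      rw [if_neg (by push_cast at h1 ⊢; exact_mod_cast not_le.2 h1), if_neg (by
        have : ((((k : ℕ) + 1) * l : ℕ) : ℤ) < ((((i : ℕ) + 1) * l : ℕ) : ℤ) := by exact_mod_cast h1
        omega)]
      ring
    · have h1 : ((i : ℕ) + 1) * l + 1 ≤ ((k : ℕ) + 1) * l := by
        have : ((i : ℕ) + 1 + 1) * l ≤ ((k : ℕ) + 1) * l := Nat.mul_le_mul_right l (by omega)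
        nlinarith
      have h2 : ((((i : ℕ) + 1) * l : ℕ) : ℤ) + 1 ≤ ((((k : ℕ) + 1) * l : ℕ) : ℤ) := by
        exact_mod_cast h1
      rw [if_pos (by omega), if_pos h2]
      ring
  · intro h; exact absurd (Finset.mem_univ i) h

lemma jj_injective (M l N : ℕ) (h : M * l ≤ N) (hl : 1 ≤ l) :
    Function.Injective (jj M l N h) := by
  intro X Y hXY
  have h1 : nest M l X = nest M l Y := congrArg Subtype.val hXY
  funext i
  rw [← nest_diff M l hl X i, ← nest_diff M l hl Y i, h1]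

lemma toR_jj (M l N : ℕ) (h : M * l ≤ N) (X : Fin M → ℤ) (x : ℤ) :
    toR (jj M l N h X).1 x = ∑ i : Fin M, (X i : ℝ) * eR (((i : ℕ) + 1) * l) x := by
  change ((nest M l X x : ℤ) : ℝ) = _
  unfold nest eR
  push_cast
  refine Finset.sum_congr rfl fun i _ => ?_
  split_ifs <;> simp

lemma En_jj {α : ℝ} (hα : 1 < α) (M l N : ℕ) (h : M * l ≤ N) (X : Fin M → ℤ) :
    En α (toR (jj M l N h X).1) = ∑ i : Fin M, ∑ k : Fin M,
      aR α (((i : ℕ) + 1) * l) (((k : ℕ) + 1) * l) * ((X i : ℝ) * (X k : ℝ)) := by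
  have hle : ∀ i : Fin M, ((i : ℕ) + 1) * l ≤ N := fun i =>
    (Nat.mul_le_mul_right l i.2).trans h
  have hs : ∀ i k : Fin M, Summable fun p : ℤ × ℤ =>
      Jc α p * ((eR (((i : ℕ) + 1) * l) p.1 - eR (((i : ℕ) + 1) * l) p.2) *
        (eR (((k : ℕ) + 1) * l) p.1 - eR (((k : ℕ) + 1) * l) p.2)) := fun i k =>
    summ_B hα (eR_FS (hle i)) (eR_FS (hle k))
  have e : ∀ p : ℤ × ℤ, Jc α p * (toR (jj M l N h X).1 p.1 - toR (jj M l N h X).1 p.2) ^ 2 =
      ∑ i : Fin M, ∑ k : Fin M, (Jc α p *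
        ((eR (((i : ℕ) + 1) * l) p.1 - eR (((i : ℕ) + 1) * l) p.2) *
        (eR (((k : ℕ) + 1) * l) p.1 - eR (((k : ℕ) + 1) * l) p.2))) * ((X i : ℝ) * (X k : ℝ)) := by
    intro p
    rw [toR_jj, toR_jj, ← Finset.sum_sub_distrib, pow_two, Finset.sum_mul_sum, Finset.mul_sum]
    refine Finset.sum_congr rfl fun i _ => ?_
    rw [Finset.mul_sum]
    refine Finset.sum_congr rfl fun k _ => ?_
    ring
  unfold En
  simp_rw [e]
  rw [Summable.tsum_finsetSum fun i _ => summable_sum fun k _ => (hs i k).mul_right _]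
  refine Finset.sum_congr rfl fun i _ => ?_
  rw [Summable.tsum_finsetSum fun k _ => (hs i k).mul_right _]
  refine Finset.sum_congr rfl fun k _ => ?_
  rw [tsum_mul_right]; rfl

lemma row_sum (g : ℕ → ℝ) (hg : ∀ d, 0 ≤ g d) (M i : ℕ) (hi : i < M) :
    ∑ k ∈ range M, g ((k - i) + (i - k)) ≤ 2 * ∑ d ∈ range M, g d := by
  rw [← Finset.sum_range_add_sum_Ico _ hi.le, two_mul]
  refine add_le_add ?_ ?_
  · have h1 : ∑ k ∈ range i, g ((k - i) + (i - k)) = ∑ k ∈ range i, g (k + 1) := by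
      rw [← Finset.sum_range_reflect]
      refine Finset.sum_congr rfl fun k hk => ?_
      rw [Finset.mem_range] at hk
      congr 1; omega
    rw [h1]
    have h2 : ∑ k ∈ range i, g (k + 1) ≤ ∑ k ∈ range (i + 1), g k := by
      rw [Finset.sum_range_succ']; linarith [hg 0]
    exact h2.trans (Finset.sum_le_sum_of_subset_of_nonneg (Finset.range_mono hi) fun _ _ _ => hg _)
  · rw [Finset.sum_Ico_eq_sum_range]
    have h1 : ∑ k ∈ range (M - i), g ((i + k - i) + (i - (i + k))) = ∑ k ∈ range (M - i), g k := by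
      refine Finset.sum_congr rfl fun k _ => ?_
      congr 1; omega
    rw [h1]
    exact Finset.sum_le_sum_of_subset_of_nonneg (Finset.range_mono (Nat.sub_le M i)) fun _ _ _ => hg _

/-- Row sums of the energy matrix. -/
lemma row_le {α : ℝ} (hα : 2 < α) (hα3 : α < 3) (M l : ℕ) (hl : 1 ≤ l)
    (hM : (M : ℝ) ^ (3 - α) ≤ (l : ℝ) ^ (α - 2)) (i : Fin M) :
    ∑ k : Fin M, aR α (((i : ℕ) + 1) * l) (((k : ℕ) + 1) * l) ≤
      2 * Ca α * (1 + 1 / (3 - α)) := by
  have hl0 : (0 : ℝ) < l := by exact_mod_cast hl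
  set g : ℕ → ℝ := fun d => Ca α * (((d * l : ℕ) : ℝ) + 1) ^ (2 - α) with hg
  have hg0 : ∀ d, 0 ≤ g d := fun d =>
    mul_nonneg (Ca_pos hα).le (Real.rpow_nonneg (by positivity) _)
  have h1 : ∀ k : Fin M, aR α (((i : ℕ) + 1) * l) (((k : ℕ) + 1) * l) ≤
      g (((k : ℕ) - i) + (i - k)) := by
    intro k
    refine (aR_le hα _ _).trans (le_of_eq ?_)
    simp only [hg]
    congr 4
    rw [← Nat.sub_mul, ← Nat.sub_mul, ← Nat.add_mul]
    congr 1; omega
  have h2 : ∑ k : Fin M, aR α (((i : ℕ) + 1) * l) (((k : ℕ) + 1) * l) ≤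
      2 * ∑ d ∈ range M, g d := by
    refine (Finset.sum_le_sum fun k _ => h1 k).trans ?_
    rw [Fin.sum_univ_eq_sum_range (fun k => g ((k - (i : ℕ)) + ((i : ℕ) - k))) M]
    exact row_sum g hg0 M i i.2
  have h3 : ∑ d ∈ range M, g d ≤ Ca α * (1 + 1 / (3 - α)) := by
    have hC := Ca_pos hα
    have h3α : 0 < 3 - α := by linarith
    obtain ⟨M', rfl⟩ : ∃ M', M = M' + 1 := ⟨M - 1, by have := i.2; omega⟩
    rw [Finset.sum_range_succ']
    have e0 : g 0 = Ca α := by simp [hg]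
    have e1 : ∀ d ∈ range M', g (d + 1) ≤ Ca α * ((l : ℝ) ^ (2 - α) * ((d : ℝ) + 1) ^ (-(α - 2))) := by
      intro d _
      simp only [hg]
      refine mul_le_mul_of_nonneg_left ?_ hC.le
      have hd : (0 : ℝ) < (d : ℝ) + 1 := by positivity
      rw [show -(α - 2) = 2 - α by ring, ← Real.mul_rpow hl0.le hd.le]
      refine Real.rpow_le_rpow_of_nonpos (by positivity) ?_ (by linarith)
      push_cast; linarith
    have h4 := Gs.partial_sum_le (q := α - 2) (by linarith) (by linarith) M'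
    rw [show 1 - (α - 2) = 3 - α by ring] at h4
    have h5 : (M' : ℝ) ^ (3 - α) ≤ (l : ℝ) ^ (α - 2) := by
      refine le_trans ?_ hM
      exact Real.rpow_le_rpow (by positivity) (by push_cast; linarith) h3α.le
    have h6 : (l : ℝ) ^ (2 - α) * (l : ℝ) ^ (α - 2) = 1 := by
      rw [← Real.rpow_add hl0]; simp
    have h7 : ∑ d ∈ range M', g (d + 1) ≤ Ca α * (1 / (3 - α)) := by
      calc ∑ d ∈ range M', g (d + 1)
          ≤ ∑ d ∈ range M', Ca α * ((l : ℝ) ^ (2 - α) * ((d : ℝ) + 1) ^ (-(α - 2))) :=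
            Finset.sum_le_sum e1
        _ = Ca α * (l : ℝ) ^ (2 - α) * ∑ d ∈ range M', ((d : ℝ) + 1) ^ (-(α - 2)) := by
            rw [Finset.mul_sum]
            exact Finset.sum_congr rfl fun d _ => by ring
        _ ≤ Ca α * (l : ℝ) ^ (2 - α) * ((1 / (3 - α)) * (M' : ℝ) ^ (3 - α)) :=
            mul_le_mul_of_nonneg_left h4 (mul_nonneg hC.le (Real.rpow_nonneg hl0.le _))
        _ ≤ Ca α * (l : ℝ) ^ (2 - α) * ((1 / (3 - α)) * (l : ℝ) ^ (α - 2)) := by
            refine mul_le_mul_of_nonneg_left (mul_le_mul_of_nonneg_left h5 (by positivity)) ?_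
            exact mul_nonneg hC.le (Real.rpow_nonneg hl0.le _)
        _ = Ca α * (1 / (3 - α)) * ((l : ℝ) ^ (2 - α) * (l : ℝ) ^ (α - 2)) := by ring
        _ = _ := by rw [h6, mul_one]
    rw [e0]
    linarith
  linarith

/-- the constant in the comparison with independent variables -/
noncomputable def bb (α β : ℝ) : ℝ := β * (2 * Ca α * (1 + 1 / (3 - α)))

lemma bb_pos {α β : ℝ} (hα : 2 < α) (hα3 : α < 3) (hβ : 0 < β) : 0 < bb α β := by
  unfold bb
  have h1 := Ca_pos hα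
  have h2 : 0 < 3 - α := by linarith
  positivity

/-- The lower bound in terms of the number of nested intervals. -/
theorem lower {α β : ℝ} (hα : 2 < α) (hα3 : α < 3) (hβ : 0 < β) (M l N : ℕ) (hl : 1 ≤ l)
    (h : M * l ≤ N) (hM : (M : ℝ) ^ (3 - α) ≤ (l : ℝ) ^ (α - 2)) :
    (M : ℝ) * vG (bb α β) ≤ m2 (f0 N) (WN α β N) := by
  have hα1 : 1 < α := by linarith
  obtain ⟨g1, s1, m1⟩ := m2_restrict (two_tf N) (jj M l N h) (jj_injective M l N h hl)
    (WN_GW hα1 hβ N) (f0 N) (summable_f0 hα1 hβ N)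
  have hf : (f0 N).comp (jj M l N h) = total M := by
    refine DFunLike.ext _ _ fun X => ?_
    change ((nest M l X 0 : ℤ) : ℝ) = _
    rw [total_apply]
    unfold nest
    push_cast
    refine Finset.sum_congr rfl fun i _ => ?_
    rw [if_pos (by simp)]
  rw [hf] at s1 m1
  set a : Fin M → Fin M → ℝ := fun i k => aR α (((i : ℕ) + 1) * l) (((k : ℕ) + 1) * l) with ha
  have ha0 : ∀ i k, 0 ≤ a i k := fun i k => aR_nonneg α _ _
  have hasym : ∀ i k, a i k = a k i := fun i k => aR_symm α _ _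
  have hrow : ∀ i, ∑ k, a i k ≤ 2 * Ca α * (1 + 1 / (3 - α)) := fun i =>
    row_le hα hα3 M l hl hM i
  let γ : (Fin M × Fin M) ⊕ Fin M → ((Fin M → ℤ) →+ ℝ) := Sum.elim
    (fun p => (AddMonoidHom.mulLeft (√(β * a p.1 p.2 / 2))).comp (coord M p.1 - coord M p.2))
    (fun i => (AddMonoidHom.mulLeft (√(bb α β - β * ∑ k, a i k))).comp (coord M i))
  have h2 : ∀ x : Fin M → ℤ, x + x = 0 → x = 0 := by
    intro x hx
    funext i
    have := congrFun hx i
    simp only [Pi.add_apply, Pi.zero_apply] at this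
    simp only [Pi.zero_apply]; omega
  obtain ⟨_, _, m3⟩ := m2_add_sqs h2 g1 (total M) s1 Finset.univ γ
  have hW : (fun X : Fin M → ℤ => WN α β N (jj M l N h X) *
      Real.exp (-∑ i, (γ i X) ^ 2)) = Wb M (bb α β) := by
    funext X
    unfold WN Wb
    rw [← Real.exp_add]
    congr 1
    rw [En_jj hα1, Fintype.sum_sum_type]
    have e1 : ∀ p : Fin M × Fin M, (γ (Sum.inl p) X) ^ 2 =
        (β * a p.1 p.2 / 2) * ((X p.1 : ℝ) - X p.2) ^ 2 := by
      intro p
      simp only [γ, Sum.elim_inl, AddMonoidHom.comp_apply, AddMonoidHom.coe_mulLeft,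
        AddMonoidHom.sub_apply, coord_apply]
      rw [mul_pow, Real.sq_sqrt (by have := ha0 p.1 p.2; positivity)]
    have e2 : ∀ i : Fin M, (γ (Sum.inr i) X) ^ 2 =
        (bb α β - β * ∑ k, a i k) * (X i : ℝ) ^ 2 := by
      intro i
      simp only [γ, Sum.elim_inr, AddMonoidHom.comp_apply, AddMonoidHom.coe_mulLeft, coord_apply]
      rw [mul_pow, Real.sq_sqrt]
      have := mul_le_mul_of_nonneg_left (hrow i) hβ.le
      unfold bb
      linarith
    simp_rw [e1, e2, Fintype.sum_prod_type]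
    -- algebra
    have t1 : ∑ i, ∑ k, (β * a i k / 2) * ((X i : ℝ) - X k) ^ 2 =
        β * (∑ i, ∑ k, a i k * (X i : ℝ) ^ 2) - β * ∑ i, ∑ k, a i k * ((X i : ℝ) * X k) := by
      have t2 : ∑ i, ∑ k, a i k * (X k : ℝ) ^ 2 = ∑ i, ∑ k, a i k * (X i : ℝ) ^ 2 := by
        rw [Finset.sum_comm]
        refine Finset.sum_congr rfl fun i _ => Finset.sum_congr rfl fun k _ => ?_
        rw [hasym]
      have t3 : ∑ i, ∑ k, (β * a i k / 2) * ((X i : ℝ) - X k) ^ 2 =
          (β / 2) * (∑ i, ∑ k, a i k * (X i : ℝ) ^ 2) + (β / 2) * (∑ i, ∑ k, a i k * (X k : ℝ) ^ 2)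
            - β * ∑ i, ∑ k, a i k * ((X i : ℝ) * X k) := by
        simp only [Finset.mul_sum, ← Finset.sum_add_distrib, ← Finset.sum_sub_distrib]
        refine Finset.sum_congr rfl fun i _ => Finset.sum_congr rfl fun k _ => ?_
        ring
      rw [t3, t2]; ring
    have t4 : ∑ i, (bb α β - β * ∑ k, a i k) * (X i : ℝ) ^ 2 =
        bb α β * ∑ i, (X i : ℝ) ^ 2 - β * ∑ i, ∑ k, a i k * (X i : ℝ) ^ 2 := by
      simp only [Finset.mul_sum, ← Finset.sum_sub_distrib]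
      refine Finset.sum_congr rfl fun i _ => ?_
      rw [sub_mul, Finset.sum_mul]
      congr 1
      refine Finset.sum_congr rfl fun k _ => ?_
      ring
    rw [t1, t4]
    ring
  rw [hW] at m3
  exact ((m2_total M (bb_pos hα hα3 hβ)).2.trans m3).trans m1

/-- **Quantitative delocalisation.** -/
theorem growth {α β : ℝ} (hα : 2 < α) (hα3 : α < 3) (hβ : 0 < β) {N : ℕ} (hN : 1 ≤ N) :
    vG (bb α β) / 4 * (N : ℝ) ^ (α - 2) ≤ m2 (f0 N) (WN α β N) := by
  have hN' : (1 : ℝ) ≤ N := by exact_mod_cast hN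
  have hN0 : (0 : ℝ) < N := by linarith
  set r : ℝ := (N : ℝ) ^ (3 - α) with hr
  have hr1 : 1 ≤ r := Real.one_le_rpow hN' (by linarith)
  have hrN : r ≤ N := by
    have := Real.rpow_le_rpow_of_exponent_le hN' (by linarith : 3 - α ≤ 1)
    rwa [Real.rpow_one] at this
  set l : ℕ := ⌈r⌉₊ with hl
  have hl1 : 1 ≤ l := Nat.one_le_ceil_iff.2 (by linarith)
  have hlr : r ≤ l := Nat.le_ceil r
  have hlN : l ≤ N := Nat.ceil_le.2 hrN
  have hl2 : (l : ℝ) ≤ 2 * r := by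
    have := Nat.ceil_lt_add_one (by linarith : 0 ≤ r)
    linarith
  have hl0 : (0 : ℝ) < l := by linarith
  set M : ℕ := N / l with hM
  have hMN : M * l ≤ N := Nat.div_mul_le_self N l
  have hM1 : 1 ≤ M := (Nat.one_le_div_iff (by omega)).2 hlN
  have hM1' : (1 : ℝ) ≤ M := by exact_mod_cast hM1
  have hMr : (M : ℝ) ≤ (N : ℝ) ^ (α - 2) := by
    have h1 : (M : ℝ) * l ≤ N := by exact_mod_cast hMN
    have h2 : (M : ℝ) ≤ N / r := by
      rw [le_div_iff₀ (by linarith)]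
      calc (M : ℝ) * r ≤ M * l := mul_le_mul_of_nonneg_left hlr (by positivity)
        _ ≤ N := h1
    have h3 : (N : ℝ) / r = (N : ℝ) ^ (α - 2) := by
      rw [hr, eq_comm, show α - 2 = 1 - (3 - α) by ring, Real.rpow_sub hN0, Real.rpow_one]
    rwa [h3] at h2
  have hcond : (M : ℝ) ^ (3 - α) ≤ (l : ℝ) ^ (α - 2) := by
    calc (M : ℝ) ^ (3 - α) ≤ ((N : ℝ) ^ (α - 2)) ^ (3 - α) :=
          Real.rpow_le_rpow (by positivity) hMr (by linarith)
      _ = ((N : ℝ) ^ (3 - α)) ^ (α - 2) := by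
          rw [← Real.rpow_mul hN0.le, ← Real.rpow_mul hN0.le, mul_comm]
      _ ≤ (l : ℝ) ^ (α - 2) := Real.rpow_le_rpow (by positivity) hlr (by linarith)
  have hlow := lower hα hα3 hβ M l N hl1 hMN hcond
  have hMlow : (N : ℝ) ^ (α - 2) / 4 ≤ M := by
    have h1 : (N : ℝ) / l < M + 1 := by
      rw [div_lt_iff₀ hl0]
      have := Nat.lt_div_mul_add (a := N) (b := l) (by omega)
      have h2 : (N : ℝ) < (M : ℝ) * l + l := by exact_mod_cast this
      linarith
    have h2 : (N : ℝ) / l ≤ 2 * M := by linarith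
    have h3 : (N : ℝ) ^ (α - 2) / 2 ≤ (N : ℝ) / l := by
      have h4 : (N : ℝ) ^ (α - 2) = N / r := by
        rw [hr, show α - 2 = 1 - (3 - α) by ring, Real.rpow_sub hN0, Real.rpow_one]
      rw [h4, div_div, div_le_div_iff_of_pos_left hN0 (by positivity) hl0]
      linarith
    linarith
  have hv := vG_pos (bb_pos hα hα3 hβ)
  calc vG (bb α β) / 4 * (N : ℝ) ^ (α - 2) = (N : ℝ) ^ (α - 2) / 4 * vG (bb α β) := by ring
    _ ≤ M * vG (bb α β) := mul_le_mul_of_nonneg_right hMlow hv.le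
    _ ≤ _ := hlow

end Pool.Agent.TH982.Chain
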