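import Mathlib

set_option autoImplicit false

/-!
# The duplication inequality for Gaussian type weights on abelian groups

`dup`: if `A x * B y = K (x + j y) * K (x - j y)` then the mean of `f ^ 2` under the weight `A` is
at least its mean under the weight `B`.
-/

namespace Pool.Agent.TH982.Dup

open Finset Filter Topology

/-- A sum over pairs in the same class of `g u * g v` is a sum of squares. -/
lemma psd_fin {α κ : Type*} [DecidableEq κ] (g : α → ℝ) (c : α → κ) (F : Finset α) :
    0 ≤ ∑ p ∈ F ×ˢ F, (if c p.1 = c p.2 then g p.1 * g p.2 else 0) := by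
  classical
  have h : ∑ p ∈ F ×ˢ F, (if c p.1 = c p.2 then g p.1 * g p.2 else 0) =
      ∑ k ∈ F.image c, (∑ u ∈ F, if c u = k then g u else 0) ^ 2 := by
    have h1 : ∀ k, (∑ u ∈ F, if c u = k then g u else 0) ^ 2 =
        ∑ p ∈ F ×ˢ F, (if c p.1 = k then (if c p.2 = k then g p.1 * g p.2 else 0) else 0) := by
      intro k
      rw [pow_two, Finset.sum_mul_sum, Finset.sum_product]
      refine Finset.sum_congr rfl fun u _ => Finset.sum_congr rfl fun v _ => ?_
      by_cases hu : c u = k <;> by_cases hv : c v = k <;> simp [hu, hv]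
    simp_rw [h1]
    rw [Finset.sum_comm]
    refine Finset.sum_congr rfl fun p hp => ?_
    rw [Finset.mem_product] at hp
    rw [Finset.sum_ite_eq]
    rw [if_pos (Finset.mem_image_of_mem c hp.1)]
    by_cases hq : c p.1 = c p.2
    · simp [hq]
    · rw [if_neg hq, if_neg (fun h => hq h.symm)]
  rw [h]
  exact Finset.sum_nonneg fun k _ => sq_nonneg _

lemma tendsto_prodSelf {α : Type*} :
    Tendsto (fun F : Finset α => F ×ˢ F) atTop (atTop : Filter (Finset (α × α))) := by
  classical
  refine tendsto_atTop_atTop.2 fun b => ⟨b.image Prod.fst ∪ b.image Prod.snd, fun a ha p hp => ?_⟩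
  rw [Finset.mem_product]
  exact ⟨ha (Finset.mem_union_left _ (Finset.mem_image_of_mem _ hp)),
    ha (Finset.mem_union_right _ (Finset.mem_image_of_mem _ hp))⟩

lemma psd_tsum {α κ : Type*} [DecidableEq κ] (g : α → ℝ) (c : α → κ)
    (hs : Summable fun p : α × α => if c p.1 = c p.2 then g p.1 * g p.2 else 0) :
    0 ≤ ∑' p : α × α, (if c p.1 = c p.2 then g p.1 * g p.2 else 0) :=
  ge_of_tendsto (hs.hasSum.comp tendsto_prodSelf) (Eventually.of_forall fun F => psd_fin g c F)

/-- **Duplication inequality.** -/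
theorem dup {G S : Type*} [AddCommGroup G] [AddCommGroup S] (h2 : ∀ x : G, x + x = 0 → x = 0)
    (j : S →+ G) (hj : Function.Injective j) (A : G → ℝ) (B : S → ℝ) (K : G → ℝ) (f : G →+ ℝ)
    (hAB : ∀ x y, A x * B y = K (x + j y) * K (x - j y))
    (sA : Summable A) (sB : Summable B)
    (sAf : Summable fun x => A x * f x ^ 2) (sBf : Summable fun y => B y * f (j y) ^ 2) :
    (∑' x, A x) * (∑' y, B y * f (j y) ^ 2) ≤ (∑' x, A x * f x ^ 2) * (∑' y, B y) := by
  classical
  set g : G → ℝ := fun u => K u * f u with hg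
  -- the double sum
  have s1 : Summable fun p : G × S => (A p.1 * f p.1 ^ 2) * B p.2 :=
    summable_mul_of_summable_norm sAf.norm sB.norm
  have s2 : Summable fun p : G × S => A p.1 * (B p.2 * f (j p.2) ^ 2) :=
    summable_mul_of_summable_norm sA.norm sBf.norm
  have e1 : ∑' p : G × S, (A p.1 * f p.1 ^ 2) * B p.2 = (∑' x, A x * f x ^ 2) * (∑' y, B y) :=
    (tsum_mul_tsum_of_summable_norm sAf.norm sB.norm).symm
  have e2 : ∑' p : G × S, A p.1 * (B p.2 * f (j p.2) ^ 2) =
      (∑' x, A x) * (∑' y, B y * f (j y) ^ 2) :=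
    (tsum_mul_tsum_of_summable_norm sA.norm sBf.norm).symm
  have key : ∀ p : G × S, (A p.1 * f p.1 ^ 2) * B p.2 - A p.1 * (B p.2 * f (j p.2) ^ 2) =
      g (p.1 + j p.2) * g (p.1 - j p.2) := by
    intro p
    have h := hAB p.1 p.2
    simp only [hg, map_add, map_sub]
    have : K (p.1 + j p.2) * (f p.1 + f (j p.2)) * (K (p.1 - j p.2) * (f p.1 - f (j p.2))) =
        (K (p.1 + j p.2) * K (p.1 - j p.2)) * (f p.1 ^ 2 - f (j p.2) ^ 2) := by ring
    rw [this, ← h]; ring
  -- the change of variables
  let T : AddSubgroup G := (AddMonoidHom.range (j + j))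
  let c : G → G ⧸ T := QuotientAddGroup.mk
  let i : G × S → G × G := fun p => (p.1 + j p.2, p.1 - j p.2)
  have hi : Function.Injective i := by
    rintro ⟨x, y⟩ ⟨x', y'⟩ h
    simp only [i, Prod.mk.injEq] at h
    obtain ⟨ha, hb⟩ := h
    have hd : (j y - j y') + (j y - j y') = 0 := by
      have : (j y - j y') + (j y - j y') =
        (x + j y - (x - j y)) - (x' + j y' - (x' - j y')) := by abel
      rw [this, ha, hb]; abel
    have hy : j y = j y' := sub_eq_zero.1 (h2 _ hd)
    have hx : x = x' := by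
      have := ha
      rw [hy] at this
      exact add_right_cancel this
    rw [hx, hj hy]
  have hrange : ∀ p : G × G, c p.1 = c p.2 ↔ p ∈ Set.range i := by
    rintro ⟨u, v⟩
    have : c u = c v ↔ -u + v ∈ T := QuotientAddGroup.eq
    simp only
    rw [this]
    constructor
    · rintro ⟨y, hy⟩
      refine ⟨(u + j y, -y), ?_⟩
      simp only [i, Prod.mk.injEq, map_neg]
      constructor
      · abel
      · have : v = u + (-u + v) := by abel
        rw [this, ← hy]
        simp only [AddMonoidHom.add_apply]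
        abel
    · rintro ⟨⟨x, y⟩, hxy⟩
      simp only [i, Prod.mk.injEq] at hxy
      refine ⟨-y, ?_⟩
      rw [← hxy.1, ← hxy.2]
      simp only [AddMonoidHom.add_apply, map_neg]
      abel
  let h : G × G → ℝ := fun p => if c p.1 = c p.2 then g p.1 * g p.2 else 0
  have hcomp : h ∘ i = fun p : G × S => g (p.1 + j p.2) * g (p.1 - j p.2) := by
    funext p
    have : c (i p).1 = c (i p).2 := (hrange _).2 ⟨p, rfl⟩
    simp only [Function.comp, h, if_pos this]
    rfl
  have hoff : ∀ p, p ∉ Set.range i → h p = 0 := by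
    intro p hp
    have : ¬ c p.1 = c p.2 := fun hc => hp ((hrange p).1 hc)
    simp only [h, if_neg this]
  have hs0 : Summable fun p : G × S => g (p.1 + j p.2) * g (p.1 - j p.2) := by
    have := s1.sub s2
    refine this.congr fun p => ?_
    exact key p
  have hs : Summable h := by
    rw [← hi.summable_iff hoff, hcomp]
    exact hs0
  have hsupp : Function.support h ⊆ Set.range i := by
    intro p hp
    by_contra hc
    exact hp (hoff p hc)
  have hT : ∑' p, h p = ∑' p : G × S, g (p.1 + j p.2) * g (p.1 - j p.2) := by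
    rw [← hi.tsum_eq hsupp]
    exact tsum_congr fun p => congrFun hcomp p
  have hpos : 0 ≤ ∑' p, h p := psd_tsum g c hs
  have hfin : ∑' p : G × S, g (p.1 + j p.2) * g (p.1 - j p.2) =
      (∑' x, A x * f x ^ 2) * (∑' y, B y) - (∑' x, A x) * (∑' y, B y * f (j y) ^ 2) := by
    rw [← e1, ← e2, ← s1.tsum_sub s2]
    exact tsum_congr fun p => (key p).symm
  rw [hT, hfin] at hpos
  linarith

end Pool.Agent.TH982.Dup
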