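import Mathlib

set_option autoImplicit false

/-!
# Summability of Gaussian weights on lattices, and a tail bound for power sums
-/

namespace Pool.Agent.TH982.Gs

open Finset Filter Topology

lemma summable_gauss_int {c : ℝ} (hc : 0 < c) :
    Summable fun k : ℤ => Real.exp (-(c * (k : ℝ) ^ 2)) := by
  have hn : Summable fun n : ℕ => Real.exp (-(c * (n : ℝ) ^ 2)) := by
    have hg : Summable fun n : ℕ => (Real.exp (-c)) ^ n :=
      summable_geometric_of_lt_one (Real.exp_pos _).le (by rw [Real.exp_lt_one_iff]; linarith)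
    refine Summable.of_nonneg_of_le (fun n => (Real.exp_pos _).le) (fun n => ?_) hg
    rw [← Real.exp_nat_mul, Real.exp_le_exp]
    have h1 : (n : ℝ) ≤ (n : ℝ) ^ 2 := by
      rcases Nat.eq_zero_or_pos n with h | h
      · simp [h]
      · have : (1 : ℝ) ≤ n := by exact_mod_cast h
        nlinarith
    nlinarith
  refine Summable.of_nat_of_neg (f := fun k : ℤ => Real.exp (-(c * (k : ℝ) ^ 2))) ?_ ?_
  · simpa using hn
  · simpa using hn

lemma summable_gauss_fin {c : ℝ} (hc : 0 < c) (n : ℕ) :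
    Summable fun X : Fin n → ℤ => Real.exp (-(c * ∑ i, (X i : ℝ) ^ 2)) := by
  induction n with
  | zero => exact Summable.of_finite
  | succ n ih =>
    rw [← (Fin.consEquiv (fun _ : Fin (n + 1) => ℤ)).summable_iff]
    refine (((summable_gauss_int hc).mul_of_nonneg ih (fun _ => (Real.exp_pos _).le)
      (fun _ => (Real.exp_pos _).le))).congr fun p => ?_
    simp only [Function.comp, Fin.consEquiv, Equiv.coe_fn_mk, Fin.sum_univ_succ, Fin.cons_zero,
      Fin.cons_succ]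
    rw [← Real.exp_add]
    congr 1; ring

lemma summable_gauss {ι : Type*} [Fintype ι] {c : ℝ} (hc : 0 < c) :
    Summable fun X : ι → ℤ => Real.exp (-(c * ∑ i, (X i : ℝ) ^ 2)) := by
  rw [← (Equiv.arrowCongr (Fintype.equivFin ι).symm (Equiv.refl ℤ)).summable_iff]
  refine (summable_gauss_fin hc (Fintype.card ι)).congr fun X => ?_
  simp only [Function.comp, Equiv.arrowCongr_apply, Equiv.symm_symm, Equiv.coe_refl, id]
  rw [Fintype.sum_equiv (Fintype.equivFin ι) (fun i => ((X ((Fintype.equivFin ι) i) : ℝ)) ^ 2)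
    (fun i => (X i : ℝ) ^ 2) (fun i => rfl)]

/-- Summability with a quadratic factor. -/
lemma summable_gauss_mul {α : Type*} (S g : α → ℝ) (hS : ∀ x, 0 ≤ S x) {c C : ℝ} (hc : 0 < c)
    (hg0 : ∀ x, 0 ≤ g x) (hg : ∀ x, g x ≤ C * S x)
    (hs : Summable fun x => Real.exp (-(c / 2 * S x))) :
    Summable fun x => Real.exp (-(c * S x)) * g x := by
  have hC : ∀ x, g x ≤ |C| * S x := fun x =>
    (hg x).trans (mul_le_mul_of_nonneg_right (le_abs_self C) (hS x))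
  refine Summable.of_nonneg_of_le (fun x => mul_nonneg (Real.exp_pos _).le (hg0 x)) (fun x => ?_)
    (hs.mul_left (|C| * (2 / c)))
  have h1 : Real.exp (-(c * S x)) = Real.exp (-(c / 2 * S x)) * Real.exp (-(c / 2 * S x)) := by
    rw [← Real.exp_add]; congr 1; ring
  have h2 : S x * Real.exp (-(c / 2 * S x)) ≤ 2 / c := by
    have h3 : c / 2 * S x ≤ Real.exp (c / 2 * S x) := by
      linarith [Real.add_one_le_exp (c / 2 * S x)]
    rw [Real.exp_neg, ← div_eq_mul_inv, div_le_iff₀ (Real.exp_pos _)]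
    have : S x = 2 / c * (c / 2 * S x) := by field_simp
    calc S x = 2 / c * (c / 2 * S x) := this
      _ ≤ 2 / c * Real.exp (c / 2 * S x) := mul_le_mul_of_nonneg_left h3 (by positivity)
  calc Real.exp (-(c * S x)) * g x ≤ Real.exp (-(c * S x)) * (|C| * S x) :=
        mul_le_mul_of_nonneg_left (hC x) (Real.exp_pos _).le
    _ = |C| * (S x * Real.exp (-(c / 2 * S x))) * Real.exp (-(c / 2 * S x)) := by rw [h1]; ring
    _ ≤ |C| * (2 / c) * Real.exp (-(c / 2 * S x)) := by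
        refine mul_le_mul_of_nonneg_right ?_ (Real.exp_pos _).le
        exact mul_le_mul_of_nonneg_left h2 (abs_nonneg _)

/-- `(u-1)^{-p} ≥ u^{-p} (1 + p/u)`. -/
lemma rpow_step {p u : ℝ} (hp : 0 < p) (hu : 1 < u) :
    p * u ^ (-p - 1) ≤ (u - 1) ^ (-p) - u ^ (-p) := by
  have hu0 : 0 < u := by linarith
  have hu1 : 0 < u - 1 := by linarith
  have hfac : u - 1 = u * (1 - 1 / u) := by field_simp
  have hx : 0 < 1 - 1 / u := by
    rw [sub_pos, div_lt_one hu0]; exact hu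
  have h1 : (u - 1) ^ (-p) = u ^ (-p) * (1 - 1 / u) ^ (-p) := by
    rw [hfac, Real.mul_rpow hu0.le hx.le]
  have h2 : 1 + p / u ≤ (1 - 1 / u) ^ (-p) := by
    rw [Real.rpow_def_of_pos hx]
    have hl : Real.log (1 - 1 / u) ≤ -(1 / u) := by
      have := Real.log_le_sub_one_of_pos hx
      linarith
    have h3 : p / u ≤ Real.log (1 - 1 / u) * -p := by
      have : p / u = -(1 / u) * -p := by ring
      rw [this]
      nlinarith
    calc 1 + p / u ≤ 1 + Real.log (1 - 1 / u) * -p := by linarith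
      _ ≤ Real.exp (Real.log (1 - 1 / u) * -p) := by
          linarith [Real.add_one_le_exp (Real.log (1 - 1 / u) * -p)]
  have h4 : u ^ (-p - 1) = u ^ (-p) / u := by
    rw [Real.rpow_sub hu0, Real.rpow_one]
  rw [h1, h4]
  have hup : 0 < u ^ (-p) := Real.rpow_pos_of_pos hu0 _
  have : u ^ (-p) * (1 + p / u) ≤ u ^ (-p) * (1 - 1 / u) ^ (-p) :=
    mul_le_mul_of_nonneg_left h2 hup.le
  have e : u ^ (-p) * (1 + p / u) = u ^ (-p) + p * (u ^ (-p) / u) := by ring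
  linarith

/-- Tail bound for power sums. -/
lemma tail_partial {γ A : ℝ} (hγ : 1 < γ) (hA : 1 ≤ A) (n : ℕ) :
    ∑ t ∈ range (n + 1), (A + t) ^ (-γ) ≤
      A ^ (-γ) + (1 / (γ - 1)) * (A ^ (1 - γ) - (A + n) ^ (1 - γ)) := by
  induction n with
  | zero => simp
  | succ n ih =>
    rw [Finset.sum_range_succ]
    have hs := rpow_step (p := γ - 1) (u := A + (n + 1 : ℕ)) (by linarith)
      (by push_cast; have : (0 : ℝ) ≤ n := n.cast_nonneg; linarith)
    have e1 : A + ((n + 1 : ℕ) : ℝ) - 1 = A + n := by push_cast; ring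
    have e2 : -(γ - 1) - 1 = -γ := by ring
    have e3 : -(γ - 1) = 1 - γ := by ring
    rw [e1, e2, e3] at hs
    have hγ' : 0 < γ - 1 := by linarith
    have h5 : (A + ((n + 1 : ℕ) : ℝ)) ^ (-γ) ≤
        (1 / (γ - 1)) * ((A + n) ^ (1 - γ) - (A + ((n + 1 : ℕ) : ℝ)) ^ (1 - γ)) := by
      rw [one_div, ← div_eq_inv_mul, le_div_iff₀ hγ']
      linarith
    calc _ ≤ A ^ (-γ) + (1 / (γ - 1)) * (A ^ (1 - γ) - (A + n) ^ (1 - γ)) +
          (1 / (γ - 1)) * ((A + n) ^ (1 - γ) - (A + ((n + 1 : ℕ) : ℝ)) ^ (1 - γ)) := add_le_add ih h5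
      _ = _ := by ring

lemma tail_summable {γ A : ℝ} (hγ : 1 < γ) (hA : 1 ≤ A) :
    Summable (fun t : ℕ => (A + t) ^ (-γ)) ∧
      ∑' t : ℕ, (A + t) ^ (-γ) ≤ (1 + 1 / (γ - 1)) * A ^ (1 - γ) := by
  have hA0 : 0 < A := by linarith
  have hγ' : 0 < γ - 1 := by linarith
  have h0 : ∀ t : ℕ, 0 ≤ (A + t) ^ (-γ) := fun t =>
    Real.rpow_nonneg (by have : (0 : ℝ) ≤ t := t.cast_nonneg; linarith) _
  have hb : ∀ n : ℕ, ∑ t ∈ range n, (A + t) ^ (-γ) ≤ (1 + 1 / (γ - 1)) * A ^ (1 - γ) := by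
    intro n
    have h1 : ∑ t ∈ range n, (A + t) ^ (-γ) ≤ ∑ t ∈ range (n + 1), (A + t) ^ (-γ) :=
      Finset.sum_le_sum_of_subset_of_nonneg (Finset.range_mono (Nat.le_succ n)) fun _ _ _ => h0 _
    have h2 := tail_partial hγ hA n
    have h3 : A ^ (-γ) ≤ A ^ (1 - γ) := Real.rpow_le_rpow_of_exponent_le hA (by linarith)
    have h4 : 0 ≤ (A + n) ^ (1 - γ) :=
      Real.rpow_nonneg (by have : (0 : ℝ) ≤ n := n.cast_nonneg; linarith) _
    have h5 : (1 / (γ - 1)) * (A ^ (1 - γ) - (A + n) ^ (1 - γ)) ≤ (1 / (γ - 1)) * A ^ (1 - γ) :=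
      mul_le_mul_of_nonneg_left (by linarith) (by positivity)
    calc _ ≤ _ := h1
      _ ≤ _ := h2
      _ ≤ A ^ (1 - γ) + (1 / (γ - 1)) * A ^ (1 - γ) := add_le_add h3 h5
      _ = _ := by ring
  exact ⟨summable_of_sum_range_le h0 hb, Real.tsum_le_of_sum_range_le h0 hb⟩

/-- Partial sums of `d^{-q}` with `0 < q < 1`. -/
lemma partial_sum_le {q : ℝ} (hq0 : 0 < q) (hq1 : q < 1) (M : ℕ) :
    ∑ d ∈ range M, ((d : ℝ) + 1) ^ (-q) ≤ (1 / (1 - q)) * (M : ℝ) ^ (1 - q) := by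
  have h1q : 0 < 1 - q := by linarith
  induction M with
  | zero => simp [Real.zero_rpow h1q.ne']
  | succ M ih =>
    rw [Finset.sum_range_succ]
    have hM : (0 : ℝ) < (M : ℝ) + 1 := by positivity
    -- (M)^{1-q} ≤ (M+1)^{1-q} (1 - (1-q)/(M+1))
    have hfac : (M : ℝ) = ((M : ℝ) + 1) * (1 + -(1 / ((M : ℝ) + 1))) := by field_simp; ring
    have hx : (0 : ℝ) ≤ 1 + -(1 / ((M : ℝ) + 1)) := by
      have : 1 / ((M : ℝ) + 1) ≤ 1 := by
        rw [div_le_one hM]; have : (0 : ℝ) ≤ M := M.cast_nonneg; linarith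
      linarith
    have hb := rpow_one_add_le_one_add_mul_self (s := -(1 / ((M : ℝ) + 1))) (by linarith)
      h1q.le (by linarith : 1 - q ≤ 1)
    have h1 : (M : ℝ) ^ (1 - q) ≤ ((M : ℝ) + 1) ^ (1 - q) * (1 + (1 - q) * -(1 / ((M : ℝ) + 1))) := by
      calc (M : ℝ) ^ (1 - q) = (((M : ℝ) + 1) * (1 + -(1 / ((M : ℝ) + 1)))) ^ (1 - q) := by
            rw [← hfac]
        _ = ((M : ℝ) + 1) ^ (1 - q) * (1 + -(1 / ((M : ℝ) + 1))) ^ (1 - q) :=
            Real.mul_rpow hM.le hx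
        _ ≤ _ := mul_le_mul_of_nonneg_left hb (Real.rpow_nonneg hM.le _)
    have h2 : ((M : ℝ) + 1) ^ (-q) = ((M : ℝ) + 1) ^ (1 - q) / ((M : ℝ) + 1) := by
      rw [show (-q : ℝ) = (1 - q) - 1 by ring, Real.rpow_sub hM, Real.rpow_one]
    have h3 : ((M : ℝ) + 1) ^ (-q) ≤
        (1 / (1 - q)) * (((M : ℝ) + 1) ^ (1 - q) - (M : ℝ) ^ (1 - q)) := by
      rw [one_div, ← div_eq_inv_mul, le_div_iff₀ h1q, h2]
      have e : ((M : ℝ) + 1) ^ (1 - q) * (1 + (1 - q) * -(1 / ((M : ℝ) + 1))) =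
        ((M : ℝ) + 1) ^ (1 - q) - ((M : ℝ) + 1) ^ (1 - q) / ((M : ℝ) + 1) * (1 - q) := by ring
      linarith
    push_cast
    calc _ ≤ (1 / (1 - q)) * (M : ℝ) ^ (1 - q) +
          (1 / (1 - q)) * (((M : ℝ) + 1) ^ (1 - q) - (M : ℝ) ^ (1 - q)) := add_le_add ih h3
      _ = _ := by ring

end Pool.Agent.TH982.Gs
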