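import Pool.Agent.TH982.Mono
import Pool.Agent.TH982.Gs

set_option autoImplicit false

/-!
# Gaussian type weights: second moments, adding squares, the independent case
-/

namespace Pool.Agent.TH982.GWt

open Finset Filter Topology Pool.Agent.TH982.Mono

/-- A positive summable weight with the duplication property. -/
structure GW {G : Type*} [AddCommGroup G] (W : G → ℝ) : Prop where
  pos : ∀ x, 0 < W x
  par : ∃ V : G → ℝ, ∀ x y, W x * W y = V (x + y) * V (x - y)
  sum : Summable W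

/-- Mean of `f ^ 2` under the weight `W`. -/
noncomputable def m2 {G : Type*} [AddCommGroup G] (f : G →+ ℝ) (W : G → ℝ) : ℝ :=
  (∑' x, W x * f x ^ 2) / (∑' x, W x)

variable {G : Type*} [AddCommGroup G]

lemma GW.tsum_pos {W : G → ℝ} (h : GW W) : 0 < ∑' x, W x :=
  h.sum.tsum_pos (fun x => (h.pos x).le) 0 (h.pos 0)

lemma exp_sq_le (s : ℝ) : Real.exp (-s ^ 2) ≤ 1 := by
  rw [Real.exp_le_one_iff]; nlinarith [sq_nonneg s]

lemma GW.mul_exp {W : G → ℝ} (h : GW W) (γ : G →+ ℝ) :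
    GW fun x => W x * Real.exp (-(γ x) ^ 2) := by
  refine ⟨fun x => mul_pos (h.pos x) (Real.exp_pos _), ?_, ?_⟩
  · obtain ⟨V, hV⟩ := h.par
    refine ⟨fun u => V u * Real.exp (-(γ u) ^ 2 / 2), fun x y => ?_⟩
    simp only [map_add, map_sub]
    have e1 : W x * Real.exp (-(γ x) ^ 2) * (W y * Real.exp (-(γ y) ^ 2)) =
          (W x * W y) * (Real.exp (-(γ x) ^ 2) * Real.exp (-(γ y) ^ 2)) := by ring
    have e2 : V (x + y) * Real.exp (-(γ x + γ y) ^ 2 / 2) *
          (V (x - y) * Real.exp (-(γ x - γ y) ^ 2 / 2)) =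
          (V (x + y) * V (x - y)) * (Real.exp (-(γ x + γ y) ^ 2 / 2) *
            Real.exp (-(γ x - γ y) ^ 2 / 2)) := by ring
    rw [e1, e2, hV x y, ← Real.exp_add, ← Real.exp_add]
    congr 2; ring
  · exact Summable.of_nonneg_of_le (fun x => (mul_pos (h.pos x) (Real.exp_pos _)).le)
      (fun x => mul_le_of_le_one_right (h.pos x).le (exp_sq_le _)) h.sum

lemma m2_add_sq [Countable G] (h2 : ∀ x : G, x + x = 0 → x = 0) {W : G → ℝ} (h : GW W)
    (f γ : G →+ ℝ) (sWf : Summable fun x => W x * f x ^ 2) :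
    m2 f (fun x => W x * Real.exp (-(γ x) ^ 2)) ≤ m2 f W := by
  obtain ⟨V, hV⟩ := h.par
  have h1 := add_sq h2 W V f γ hV (fun x => (h.pos x).le) h.sum sWf
  unfold m2
  rw [div_le_div_iff₀ (h.mul_exp γ).tsum_pos h.tsum_pos]
  linarith

theorem m2_add_sqs [Countable G] (h2 : ∀ x : G, x + x = 0 → x = 0) {W : G → ℝ} (h : GW W)
    (f : G →+ ℝ) (sWf : Summable fun x => W x * f x ^ 2) {ι : Type*} (s : Finset ι)
    (γ : ι → (G →+ ℝ)) :
    GW (fun x => W x * Real.exp (-∑ i ∈ s, (γ i x) ^ 2)) ∧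
      (Summable fun x => (W x * Real.exp (-∑ i ∈ s, (γ i x) ^ 2)) * f x ^ 2) ∧
      m2 f (fun x => W x * Real.exp (-∑ i ∈ s, (γ i x) ^ 2)) ≤ m2 f W := by
  classical
  induction s using Finset.induction_on with
  | empty => simpa using ⟨h, sWf⟩
  | insert a s ha ih =>
    obtain ⟨ih1, ih2, ih3⟩ := ih
    have e : ∀ x, W x * Real.exp (-∑ i ∈ insert a s, (γ i x) ^ 2) =
        (W x * Real.exp (-∑ i ∈ s, (γ i x) ^ 2)) * Real.exp (-(γ a x) ^ 2) := by
      intro x
      rw [Finset.sum_insert ha, mul_assoc, ← Real.exp_add]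
      congr 2; ring
    simp_rw [e]
    refine ⟨ih1.mul_exp (γ a), ?_, (m2_add_sq h2 ih1 f (γ a) ih2).trans ih3⟩
    refine Summable.of_nonneg_of_le (fun x => mul_nonneg (mul_nonneg (ih1.pos x).le
      (Real.exp_pos _).le) (sq_nonneg _)) (fun x => ?_) ih2
    exact mul_le_mul_of_nonneg_right (mul_le_of_le_one_right (ih1.pos x).le (exp_sq_le _))
      (sq_nonneg _)

theorem m2_restrict {S : Type*} [AddCommGroup S] (h2 : ∀ x : G, x + x = 0 → x = 0)
    (j : S →+ G) (hj : Function.Injective j) {W : G → ℝ} (h : GW W)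
    (f : G →+ ℝ) (sWf : Summable fun x => W x * f x ^ 2) :
    GW (fun y => W (j y)) ∧ (Summable fun y => W (j y) * (f.comp j) y ^ 2) ∧
      m2 (f.comp j) (fun y => W (j y)) ≤ m2 f W := by
  obtain ⟨V, hV⟩ := h.par
  have hg : GW (fun y => W (j y)) := by
    refine ⟨fun y => h.pos _, ⟨fun y => V (j y), fun x y => ?_⟩, h.sum.comp_injective hj⟩
    simp only [map_add, map_sub]
    exact hV _ _
  refine ⟨hg, sWf.comp_injective hj, ?_⟩
  have h1 := restrict h2 j hj W V f hV h.sum sWf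
  unfold m2
  rw [div_le_div_iff₀ hg.tsum_pos h.tsum_pos]
  simp only [AddMonoidHom.comp_apply]
  linarith

/-! ### The independent case -/

/-- Variance of the discrete Gaussian on `ℤ`. -/
noncomputable def vG (b : ℝ) : ℝ :=
  (∑' k : ℤ, Real.exp (-(b * (k : ℝ) ^ 2)) * (k : ℝ) ^ 2) / ∑' k : ℤ, Real.exp (-(b * (k : ℝ) ^ 2))

lemma summable_int_mul {b : ℝ} (hb : 0 < b) :
    Summable fun k : ℤ => Real.exp (-(b * (k : ℝ) ^ 2)) * (k : ℝ) ^ 2 :=
  Gs.summable_gauss_mul (fun k : ℤ => (k : ℝ) ^ 2) (fun k : ℤ => (k : ℝ) ^ 2)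
    (fun _ => sq_nonneg _) (C := 1) hb (fun _ => sq_nonneg _) (fun _ => by simp)
    (Gs.summable_gauss_int (by positivity))

lemma vG_pos {b : ℝ} (hb : 0 < b) : 0 < vG b := by
  unfold vG
  refine div_pos ?_ ?_
  · exact (summable_int_mul hb).tsum_pos (fun k => by positivity) 1 (by simp [Real.exp_pos])
  · exact (Gs.summable_gauss_int hb).tsum_pos (fun k => (Real.exp_pos _).le) 0 (Real.exp_pos _)

/-- The product weight. -/
noncomputable def Wb (n : ℕ) (b : ℝ) (X : Fin n → ℤ) : ℝ :=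
  Real.exp (-(b * ∑ i, (X i : ℝ) ^ 2))

lemma Wb_GW (n : ℕ) {b : ℝ} (hb : 0 < b) : GW (Wb n b) := by
  refine ⟨fun x => Real.exp_pos _, ⟨fun u => Real.exp (-(b / 2 * ∑ i, (u i : ℝ) ^ 2)),
    fun x y => ?_⟩, Gs.summable_gauss_fin hb n⟩
  unfold Wb
  rw [← Real.exp_add, ← Real.exp_add]
  congr 1
  have : ∑ i, (((x + y) i : ℤ) : ℝ) ^ 2 + ∑ i, (((x - y) i : ℤ) : ℝ) ^ 2 =
      2 * ∑ i, (x i : ℝ) ^ 2 + 2 * ∑ i, (y i : ℝ) ^ 2 := by
    rw [← Finset.sum_add_distrib, Finset.mul_sum, Finset.mul_sum, ← Finset.sum_add_distrib]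
    refine Finset.sum_congr rfl fun i _ => ?_
    simp only [Pi.add_apply, Pi.sub_apply]
    push_cast; ring
  linear_combination (b / 2) * this

/-- coordinate homomorphism -/
noncomputable def coord (n : ℕ) (i : Fin n) : (Fin n → ℤ) →+ ℝ :=
  (Int.castAddHom ℝ).comp (Pi.evalAddMonoidHom (fun _ => ℤ) i)

@[simp] lemma coord_apply (n : ℕ) (i : Fin n) (X : Fin n → ℤ) : coord n i X = (X i : ℝ) := rfl

/-- sum of the coordinates -/
noncomputable def total (n : ℕ) : (Fin n → ℤ) →+ ℝ := ∑ i, coord n i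

@[simp] lemma total_apply (n : ℕ) (X : Fin n → ℤ) : total n X = ∑ i, (X i : ℝ) := by
  simp [total]

lemma summable_Wb_coord (n : ℕ) {b : ℝ} (hb : 0 < b) (i k : Fin n) :
    Summable fun X : Fin n → ℤ => Wb n b X * |(X i : ℝ) * (X k : ℝ)| := by
  refine Gs.summable_gauss_mul (fun X : Fin n → ℤ => ∑ i, (X i : ℝ) ^ 2) _
    (fun _ => Finset.sum_nonneg fun _ _ => sq_nonneg _) (C := 1) hb (fun _ => abs_nonneg _)
    (fun X => ?_) (Gs.summable_gauss_fin (by positivity) n)
  have h1 : (X i : ℝ) ^ 2 ≤ ∑ i, (X i : ℝ) ^ 2 :=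
    Finset.single_le_sum (f := fun i => (X i : ℝ) ^ 2) (fun _ _ => sq_nonneg _) (Finset.mem_univ i)
  have h2 : (X k : ℝ) ^ 2 ≤ ∑ i, (X i : ℝ) ^ 2 :=
    Finset.single_le_sum (f := fun i => (X i : ℝ) ^ 2) (fun _ _ => sq_nonneg _) (Finset.mem_univ k)
  rw [abs_mul]
  nlinarith [sq_nonneg (|(X i : ℝ)| - |(X k : ℝ)|), sq_abs (X i : ℝ), sq_abs (X k : ℝ)]

lemma summable_Wb_coord' (n : ℕ) {b : ℝ} (hb : 0 < b) (i k : Fin n) :
    Summable fun X : Fin n → ℤ => Wb n b X * ((X i : ℝ) * (X k : ℝ)) := by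
  refine (Summable.of_norm ?_)
  refine (summable_Wb_coord n hb i k).congr fun X => ?_
  have hpos : 0 < Wb n b X := Real.exp_pos _
  rw [Real.norm_eq_abs, abs_mul (Wb n b X), abs_of_pos hpos]

lemma cross_zero (n : ℕ) {b : ℝ} {i k : Fin n} (hik : i ≠ k) :
    ∑' X : Fin n → ℤ, Wb n b X * ((X i : ℝ) * (X k : ℝ)) = 0 := by
  classical
  -- flip the sign of the `i`-th coordinate
  let e : (Fin n → ℤ) ≃ (Fin n → ℤ) :=
    { toFun := fun X => Function.update X i (-X i)
      invFun := fun X => Function.update X i (-X i)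
      left_inv := fun X => by
        funext t
        by_cases h : t = i
        · subst h; simp
        · simp [Function.update_of_ne h]
      right_inv := fun X => by
        funext t
        by_cases h : t = i
        · subst h; simp
        · simp [Function.update_of_ne h] }
  have h := e.tsum_eq (fun X : Fin n → ℤ => Wb n b X * ((X i : ℝ) * (X k : ℝ)))
  have h' : ∀ X : Fin n → ℤ, Wb n b (e X) * (((e X) i : ℝ) * ((e X) k : ℝ)) =
      -(Wb n b X * ((X i : ℝ) * (X k : ℝ))) := by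
    intro X
    have h1 : (e X) i = -X i := by simp [e]
    have h2 : (e X) k = X k := by simp [e, Function.update_of_ne hik.symm]
    have h3 : Wb n b (e X) = Wb n b X := by
      unfold Wb
      congr 3
      refine Finset.sum_congr rfl fun t _ => ?_
      by_cases ht : t = i
      · subst ht; rw [h1]; push_cast; ring
      · simp [e, Function.update_of_ne ht]
    rw [h1, h2, h3]; push_cast; ring
  simp_rw [h', tsum_neg] at h
  linarith

theorem m2_total (n : ℕ) {b : ℝ} (hb : 0 < b) :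
    (Summable fun X : Fin n → ℤ => Wb n b X * (total n X) ^ 2) ∧
      (n : ℝ) * vG b ≤ m2 (total n) (Wb n b) := by
  classical
  have hsq : ∀ X : Fin n → ℤ, Wb n b X * (total n X) ^ 2 =
      ∑ i, ∑ k, Wb n b X * ((X i : ℝ) * (X k : ℝ)) := by
    intro X
    rw [total_apply, pow_two, Finset.sum_mul_sum, Finset.mul_sum]
    refine Finset.sum_congr rfl fun i _ => ?_
    rw [Finset.mul_sum]
  have hs1 : ∀ i, Summable fun X : Fin n → ℤ => ∑ k, Wb n b X * ((X i : ℝ) * (X k : ℝ)) :=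
    fun i => summable_sum fun k _ => summable_Wb_coord' n hb i k
  have hs : Summable fun X : Fin n → ℤ => Wb n b X * (total n X) ^ 2 := by
    simp_rw [hsq]
    exact summable_sum fun i _ => hs1 i
  refine ⟨hs, ?_⟩
  have hval : ∑' X : Fin n → ℤ, Wb n b X * (total n X) ^ 2 =
      ∑ i, ∑' X : Fin n → ℤ, Wb n b X * (coord n i X) ^ 2 := by
    simp_rw [hsq]
    rw [Summable.tsum_finsetSum fun i _ => hs1 i]
    refine Finset.sum_congr rfl fun i _ => ?_
    rw [Summable.tsum_finsetSum fun k _ => summable_Wb_coord' n hb i k]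
    rw [Finset.sum_eq_single i]
    · simp only [coord_apply, pow_two]
    · intro k _ hk
      exact cross_zero n hk.symm
    · intro h; exact absurd (Finset.mem_univ i) h
  have h2 : ∀ x : Fin n → ℤ, x + x = 0 → x = 0 := by
    intro x hx
    funext i
    have := congrFun hx i
    simp only [Pi.add_apply, Pi.zero_apply] at this
    simp only [Pi.zero_apply]; omega
  have hone : ∀ i, vG b ≤ (∑' X : Fin n → ℤ, Wb n b X * (coord n i X) ^ 2) / ∑' X, Wb n b X := by
    intro i
    let j : ℤ →+ (Fin n → ℤ) := AddMonoidHom.single (fun _ => ℤ) i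
    have hj : Function.Injective j := fun a c h => by
      have := congrFun h i
      simpa [j] using this
    have hsum : Summable fun X : Fin n → ℤ => Wb n b X * (coord n i X) ^ 2 := by
      refine (summable_Wb_coord' n hb i i).congr fun X => ?_
      simp only [coord_apply, pow_two]
    have hW : ∀ k : ℤ, Wb n b (j k) = Real.exp (-(b * (k : ℝ) ^ 2)) := by
      intro k
      unfold Wb
      congr 3
      rw [Finset.sum_eq_single i]
      · simp [j]
      · intro t _ ht; simp [j, Pi.single_eq_of_ne ht]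
      · intro h; exact absurd (Finset.mem_univ i) h
    have hc : ∀ k : ℤ, ((coord n i).comp j) k = (k : ℝ) := by
      intro k; simp [j]
    have h := (m2_restrict h2 j hj (Wb_GW n hb) (coord n i) hsum).2.2
    unfold m2 at h
    simp_rw [hW, hc] at h
    exact h
  unfold m2
  rw [hval, Finset.sum_div]
  calc (n : ℝ) * vG b = ∑ _i : Fin n, vG b := by simp
    _ ≤ _ := Finset.sum_le_sum fun i _ => hone i

end Pool.Agent.TH982.GWt
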