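import Pool.Agent.TH982.Dup

set_option autoImplicit false

/-!
# Monotonicity of second moments of discrete Gaussian type measures
-/

namespace Pool.Agent.TH982.Mono

open Finset Filter Topology MeasureTheory Pool.Agent.TH982.Dup

/-- Restriction to a subgroup decreases second moments. -/
theorem restrict {G S : Type*} [AddCommGroup G] [AddCommGroup S] (h2 : ∀ x : G, x + x = 0 → x = 0)
    (j : S →+ G) (hj : Function.Injective j) (W V : G → ℝ) (f : G →+ ℝ)
    (hW : ∀ x y, W x * W y = V (x + y) * V (x - y))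
    (sW : Summable W) (sWf : Summable fun x => W x * f x ^ 2) :
    (∑' x, W x) * (∑' y, W (j y) * f (j y) ^ 2) ≤ (∑' x, W x * f x ^ 2) * (∑' y, W (j y)) :=
  dup h2 j hj W (fun y => W (j y)) V f (fun x y => hW x (j y)) sW (sW.comp_injective hj) sWf
    (sWf.comp_injective hj)

lemma gauss_shift (a : ℝ) : ∫ t : ℝ, Real.exp (-(a - t) ^ 2) = √Real.pi := by
  have h := integral_gaussian (1 : ℝ)
  have h' : ∫ t : ℝ, Real.exp (-(a - t) ^ 2) = ∫ t : ℝ, Real.exp (-1 * t ^ 2) := by
    rw [← integral_sub_left_eq_self (fun t : ℝ => Real.exp (-1 * t ^ 2)) volume a]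
    congr 1; funext t; congr 1; ring
  rw [h', h]; simp

lemma gauss_shift_int (a : ℝ) : Integrable fun t : ℝ => Real.exp (-(a - t) ^ 2) := by
  have h := (integrable_exp_neg_mul_sq (b := 1) one_pos).comp_sub_left a
  refine h.congr (Eventually.of_forall fun t => ?_)
  simp only
  congr 1; ring

/-- Adding the square of an additive real function to the energy decreases second moments. -/
theorem add_sq {G : Type*} [AddCommGroup G] [Countable G] (h2 : ∀ x : G, x + x = 0 → x = 0)
    (W V : G → ℝ) (f γ : G →+ ℝ)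
    (hW : ∀ x y, W x * W y = V (x + y) * V (x - y)) (hW0 : ∀ x, 0 ≤ W x)
    (sW : Summable W) (sWf : Summable fun x => W x * f x ^ 2) :
    (∑' x, W x) * (∑' y, (W y * Real.exp (-(γ y) ^ 2)) * f y ^ 2) ≤
      (∑' x, W x * f x ^ 2) * (∑' y, W y * Real.exp (-(γ y) ^ 2)) := by
  have hle : ∀ s : ℝ, Real.exp (-s ^ 2) ≤ 1 := fun s => by
    rw [Real.exp_le_one_iff]; nlinarith [sq_nonneg s]
  have sAt : ∀ t : ℝ, Summable fun x => W x * Real.exp (-(γ x - t) ^ 2) := fun t =>
    Summable.of_nonneg_of_le (fun x => mul_nonneg (hW0 x) (Real.exp_pos _).le)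
      (fun x => mul_le_of_le_one_right (hW0 x) (hle _)) sW
  have sAtf : ∀ t : ℝ, Summable fun x => (W x * Real.exp (-(γ x - t) ^ 2)) * f x ^ 2 := fun t => by
    refine Summable.of_nonneg_of_le (fun x => mul_nonneg (mul_nonneg (hW0 x) (Real.exp_pos _).le)
      (sq_nonneg _)) (fun x => ?_) sWf
    exact mul_le_mul_of_nonneg_right (mul_le_of_le_one_right (hW0 x) (hle _)) (sq_nonneg _)
  have sB : Summable fun x => W x * Real.exp (-(γ x) ^ 2) := by simpa using sAt 0
  have sBf : Summable fun x => (W x * Real.exp (-(γ x) ^ 2)) * f x ^ 2 := by simpa using sAtf 0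
  set c1 := ∑' y, (W y * Real.exp (-(γ y) ^ 2)) * f y ^ 2 with hc1
  set c2 := ∑' y, W y * Real.exp (-(γ y) ^ 2) with hc2
  have hD : ∀ t : ℝ, 0 ≤ ∑' x, (W x * Real.exp (-(γ x - t) ^ 2)) * (c2 * f x ^ 2 - c1) := by
    intro t
    have h := dup h2 (AddMonoidHom.id G) Function.injective_id
      (fun x => W x * Real.exp (-(γ x - t) ^ 2)) (fun x => W x * Real.exp (-(γ x) ^ 2))
      (fun u => V u * Real.exp (-((γ u - t) ^ 2) / 2)) f ?_ (sAt t) sB (sAtf t) sBf
    · simp only [AddMonoidHom.id_apply] at h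
      have e : ∑' x, (W x * Real.exp (-(γ x - t) ^ 2)) * (c2 * f x ^ 2 - c1) =
          (∑' x, (W x * Real.exp (-(γ x - t) ^ 2)) * f x ^ 2) * c2 -
            (∑' x, W x * Real.exp (-(γ x - t) ^ 2)) * c1 := by
        rw [← tsum_mul_right, ← tsum_mul_right,
          ← ((sAtf t).mul_right c2).tsum_sub ((sAt t).mul_right c1)]
        exact tsum_congr fun x => by ring
      rw [e]; linarith
    · intro x y
      simp only [AddMonoidHom.id_apply, map_add, map_sub]
      have e1 : W x * Real.exp (-(γ x - t) ^ 2) * (W y * Real.exp (-(γ y) ^ 2)) =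
          (W x * W y) * (Real.exp (-(γ x - t) ^ 2) * Real.exp (-(γ y) ^ 2)) := by ring
      have e2 : V (x + y) * Real.exp (-(γ x + γ y - t) ^ 2 / 2) *
          (V (x - y) * Real.exp (-(γ x - γ y - t) ^ 2 / 2)) =
          (V (x + y) * V (x - y)) * (Real.exp (-(γ x + γ y - t) ^ 2 / 2) *
            Real.exp (-(γ x - γ y - t) ^ 2 / 2)) := by ring
      rw [e1, e2, hW x y, ← Real.exp_add, ← Real.exp_add]
      congr 2; ring
  -- integrate over `t`
  have hint : ∀ x, Integrable fun t : ℝ =>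
      (W x * Real.exp (-(γ x - t) ^ 2)) * (c2 * f x ^ 2 - c1) := fun x => by
    have := ((gauss_shift_int (γ x)).const_mul (W x)).mul_const (c2 * f x ^ 2 - c1)
    exact this
  have hval : ∀ x, ∫ t : ℝ, (W x * Real.exp (-(γ x - t) ^ 2)) * (c2 * f x ^ 2 - c1) =
      √Real.pi * (W x * (c2 * f x ^ 2 - c1)) := fun x => by
    rw [integral_mul_const, integral_const_mul, gauss_shift]; ring
  have hnorm : ∀ x, ∫ t : ℝ, ‖(W x * Real.exp (-(γ x - t) ^ 2)) * (c2 * f x ^ 2 - c1)‖ =
      √Real.pi * |W x * (c2 * f x ^ 2 - c1)| := fun x => by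
    have : ∀ t : ℝ, ‖(W x * Real.exp (-(γ x - t) ^ 2)) * (c2 * f x ^ 2 - c1)‖ =
        |W x * (c2 * f x ^ 2 - c1)| * Real.exp (-(γ x - t) ^ 2) := by
      intro t
      rw [Real.norm_eq_abs, show (W x * Real.exp (-(γ x - t) ^ 2)) * (c2 * f x ^ 2 - c1) =
        (W x * (c2 * f x ^ 2 - c1)) * Real.exp (-(γ x - t) ^ 2) by ring, abs_mul,
        abs_of_pos (Real.exp_pos _)]
    simp_rw [this]
    rw [integral_const_mul, gauss_shift]; ring
  have sT : Summable fun x => W x * (c2 * f x ^ 2 - c1) := by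
    have := (sWf.mul_left c2).sub (sW.mul_right c1)
    exact this.congr fun x => by ring
  have hsum : Summable fun x => ∫ t : ℝ,
      ‖(W x * Real.exp (-(γ x - t) ^ 2)) * (c2 * f x ^ 2 - c1)‖ := by
    simp_rw [hnorm]
    exact sT.abs.mul_left _
  have hs := (hasSum_integral_of_summable_integral_norm hint hsum).tsum_eq
  simp_rw [hval] at hs
  have hpos : 0 ≤ ∫ t : ℝ, ∑' x, (W x * Real.exp (-(γ x - t) ^ 2)) * (c2 * f x ^ 2 - c1) :=
    integral_nonneg hD
  rw [← hs, tsum_mul_left] at hpos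
  have hpi : 0 < √Real.pi := Real.sqrt_pos.2 Real.pi_pos
  have hpos' : 0 ≤ ∑' x, W x * (c2 * f x ^ 2 - c1) := nonneg_of_mul_nonneg_right hpos hpi
  have e : ∑' x, W x * (c2 * f x ^ 2 - c1) = (∑' x, W x * f x ^ 2) * c2 - (∑' x, W x) * c1 := by
    rw [← tsum_mul_right, ← tsum_mul_right, ← (sWf.mul_right c2).tsum_sub (sW.mul_right c1)]
    exact tsum_congr fun x => by ring
  rw [e] at hpos'
  linarith

end Pool.Agent.TH982.Mono
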